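import Pool.Agent.Results.MP_8efaaa_nt.AlmostPrimeIntervals
import Pool.Agent.K6.H83.MC.Pow

set_option autoImplicit false
set_option maxHeartbeats 4000000

/-! # Mills-type constants for congruent numbers of the classes `5, 6, 7` modulo `8`

Mills: there is a constant `A` such that `⌊A^(3^k)⌋` is prime for all `k`. Here the primes are replaced by the
squarefree congruent numbers of prescribed classes `r_k ∈ {5, 6, 7}` modulo `8`. Let `lam > 3` and
`s < (lam - 3) / (3 (lam - 1))`. For every sequence of functions `v_k t^(n_k)` with positive nondecreasing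
exponents, each of which is at least the `lam`-th power of the previous one (for instance `t^(4^k)`), and all
`r_k ∈ {5, 6, 7}` the set of the reals `t` for which ALL the integers `N_k = ⌊v_k t^(n_k)⌋`, `k` large, are
squarefree congruent numbers with `N_k ≡ r_k` modulo `8` has Hausdorff dimension at least `s` in every interval.
In addition `N_k` may be prescribed modulo `M_k ≤ N_k^δ`, and `N_k` is almost prime up to the fixed divisor.

Method: the interval theorem `MP_8efaaa_nt.AlmostPrimeIntervals` and the Cantor set construction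
`Pool.Agent.K6.H83.MC`. -/

namespace Pool.Agent.Results.MP_8efaaa_nt.MillsConstants

open Filter

/-- `x² + a y² = z²`, `x² - a y² = t²` is solvable in positive integers -/
def Congruent (a : ℕ) : Prop :=
  ∃ x y z t : ℕ, 0 < x ∧ 0 < y ∧ 0 < z ∧ 0 < t ∧ x ^ 2 + a * y ^ 2 = z ^ 2 ∧
    x ^ 2 = a * y ^ 2 + t ^ 2

/-- `m` has at most `R` prime factors (with multiplicity), the odd ones larger than
`X ^ (1 / R)` -/
def AlmostPrime (R : ℕ) (X : ℝ) (m : ℕ) : Prop :=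
  m.primeFactorsList.length ≤ R ∧
    ∀ p : ℕ, p.Prime → p ≠ 2 → p ∣ m → X ^ (1 / (R : ℝ)) < (p : ℝ)

/-- `N` is a squarefree congruent number `≡ r` modulo `8`; if `M ≤ N ^ δ`, then `N ≡ a` modulo `M` and
`N / (a, M)` is almost prime -/
def Target (R : ℕ) (δ : ℝ) (r M a N : ℕ) : Prop :=
  Squarefree N ∧ N % 8 = r ∧ Congruent N ∧ ((M : ℝ) ≤ (N : ℝ) ^ δ →
    N ≡ a [MOD M] ∧ ∃ m, N = Nat.gcd a M * m ∧ AlmostPrime R N m)

/-- every interval of length `x^θ` contains a target -/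
theorem target_short (θ : ℝ) (h0 : 2 / 3 < θ) (h1 : θ ≤ 17 / 24) : ∃ (R : ℕ) (δ : ℝ), 0 < δ ∧
    ∃ X₀ : ℝ, ∀ x : ℝ, X₀ ≤ x → ∀ r M a : ℕ, (r = 5 ∨ r = 6 ∨ r = 7) → 0 < M →
    (∃ j : ℕ, Squarefree j ∧ j % 8 = r ∧ j ≡ a [MOD M]) → ∃ y, x ≤ y ∧ y ≤ x + x ^ θ ∧
      ∀ t, y ≤ t → t ≤ y + 1 / 2 → Target R δ r M a ⌊t⌋₊ := by
  obtain ⟨R, hR, X₀, hb⟩ := AlmostPrimeIntervals.result θ h0 h1
  refine ⟨2 * R, (θ - 2 / 3) / 28, by linarith, max X₀ 2, fun x hx r M a hr hM hj => ?_⟩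
  have hx2 : 2 ≤ x := (le_max_right _ _).trans hx
  have hx0 : 0 < x := by linarith
  have hxX : X₀ ≤ x := (le_max_left _ _).trans hx
  have hxx : x ^ θ ≤ x := by
    calc x ^ θ ≤ x ^ (1 : ℝ) := Real.rpow_le_rpow_of_exponent_le (by linarith) (by linarith)
      _ = x := Real.rpow_one x
  have hR0 : (0 : ℝ) < R := by exact_mod_cast hR
  -- `N ≤ x ^ 2`
  have key : ∀ n : ℕ, x ≤ n → (n : ℝ) ≤ x + x ^ θ → (n : ℝ) ^ ((θ - 2 / 3) / 28) ≤
      x ^ ((θ - 2 / 3) / 14) ∧ (n : ℝ) ^ (1 / ((2 * R : ℕ) : ℝ)) ≤ x ^ (1 / (R : ℝ)) := by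
    intro n h1 h2
    have h3 : (n : ℝ) ≤ x ^ (2 : ℝ) := by
      rw [Real.rpow_two]
      nlinarith
    constructor
    · calc (n : ℝ) ^ ((θ - 2 / 3) / 28) ≤ (x ^ (2 : ℝ)) ^ ((θ - 2 / 3) / 28) :=
            Real.rpow_le_rpow (by positivity) h3 (by linarith)
        _ = x ^ ((θ - 2 / 3) / 14) := by
          rw [← Real.rpow_mul hx0.le]; congr 1; ring
    · calc (n : ℝ) ^ (1 / ((2 * R : ℕ) : ℝ)) ≤ (x ^ (2 : ℝ)) ^ (1 / ((2 * R : ℕ) : ℝ)) :=
            Real.rpow_le_rpow (by positivity) h3 (by positivity)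
        _ = x ^ (1 / (R : ℝ)) := by
          rw [← Real.rpow_mul hx0.le]; congr 1; push_cast; field_simp
  have floor : ∀ n : ℕ, ∀ t : ℝ, (n : ℝ) ≤ t → t ≤ n + 1 / 2 → ⌊t⌋₊ = n := by
    intro n t h1 h2
    have hn0 : (0 : ℝ) ≤ n := Nat.cast_nonneg n
    rw [Nat.floor_eq_iff (by linarith)]
    exact ⟨h1, by linarith⟩
  by_cases hMx : (M : ℝ) ≤ x ^ ((θ - 2 / 3) / 14)
  · have h := hb x hxX M hM hMx r hr a hj
    have hne : {n : ℕ | x ≤ n ∧ (n : ℝ) ≤ x + x ^ θ ∧ Squarefree n ∧ n % 8 = r ∧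
        n ≡ a [MOD M] ∧ AlmostPrimeIntervals.Congruent n ∧
        ∃ m, n = Nat.gcd a M * m ∧ AlmostPrimeIntervals.AlmostPrime R x m}.ncard ≠ 0 := by
      intro h0
      rw [h0] at h
      have : 0 < x ^ (1 / 12 : ℝ) := Real.rpow_pos_of_pos hx0 _
      simp only [Nat.cast_zero] at h
      linarith
    obtain ⟨n, n1, n2, n3, n4, n5, n6, m, n7, n8, n9⟩ := Set.nonempty_of_ncard_ne_zero hne
    refine ⟨n, n1, n2, fun t ht1 ht2 => ?_⟩
    rw [floor n t ht1 ht2]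
    refine ⟨n3, n4, n6, fun _ => ⟨n5, m, n7, n8.trans (by omega), fun p hp hp2 hpm => ?_⟩⟩
    exact lt_of_le_of_lt (key n n1 n2).2 (n9 p hp hp2 hpm)
  · have h := hb x hxX 1 one_pos (by
      rw [Nat.cast_one]
      exact Real.one_le_rpow (by linarith) (by linarith)) r hr 0 ⟨r, by
        rcases hr with rfl | rfl | rfl
        · exact (by norm_num : Nat.Prime 5).squarefree
        · have : (6 : ℕ) = 2 * 3 := rfl
          rw [this, Nat.squarefree_mul (by norm_num)]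
          exact ⟨Nat.prime_two.squarefree, Nat.prime_three.squarefree⟩
        · exact (by norm_num : Nat.Prime 7).squarefree, by
        rcases hr with rfl | rfl | rfl <;> rfl, Nat.modEq_one⟩
    have hne : {n : ℕ | x ≤ n ∧ (n : ℝ) ≤ x + x ^ θ ∧ Squarefree n ∧ n % 8 = r ∧
        n ≡ 0 [MOD 1] ∧ AlmostPrimeIntervals.Congruent n ∧
        ∃ m, n = Nat.gcd 0 1 * m ∧ AlmostPrimeIntervals.AlmostPrime R x m}.ncard ≠ 0 := by
      intro h0
      rw [h0] at h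
      have : 0 < x ^ (1 / 12 : ℝ) := Real.rpow_pos_of_pos hx0 _
      simp only [Nat.cast_zero] at h
      linarith
    obtain ⟨n, n1, n2, n3, n4, n5, n6, -⟩ := Set.nonempty_of_ncard_ne_zero hne
    refine ⟨n, n1, n2, fun t ht1 ht2 => ?_⟩
    rw [floor n t ht1 ht2]
    exact ⟨n3, n4, n6, fun hM' => absurd (hM'.trans (key n n1 n2).1) hMx⟩

/-- **Mills-type constants for congruent numbers.** -/
theorem result (lam s : ℝ) (hlam : 3 < lam) (hs : s < (lam - 3) / (3 * (lam - 1))) :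
    ∃ (R : ℕ) (δ : ℝ), 0 < δ ∧
    ∀ v n : ℕ → ℝ, 0 < n 0 → Monotone n → (∀ k, 0 < v k) → ∀ a b : ℝ, 0 ≤ a → a < b →
    (∀ t, a < t → t < b → 1 < v 0 * t ^ n 0) →
    (∀ k t, a < t → t < b → (v k * t ^ n k) ^ lam ≤ v (k + 1) * t ^ n (k + 1)) →
    ∀ r M c : ℕ → ℕ, (∀ k, r k = 5 ∨ r k = 6 ∨ r k = 7) → (∀ k, 0 < M k) →
    (∀ k, ∃ j : ℕ, Squarefree j ∧ j % 8 = r k ∧ j ≡ c k [MOD M k]) →
    ENNReal.ofReal s ≤
      dimH {t : ℝ | a < t ∧ t < b ∧ ∃ k₀, ∀ k, k₀ ≤ k →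
        Target R δ (r k) (M k) (c k) ⌊v k * t ^ n k⌋₊} := by
  have hl0 : 0 < lam := by linarith
  have hD : 2 / 3 < (1 - 1 / lam) * (1 - s) := by
    have e1 : s * (3 * (lam - 1)) < lam - 3 := by
      rwa [lt_div_iff₀ (by linarith)] at hs
    have e2 : (1 - 1 / lam) * (1 - s) = (lam - 1) * (1 - s) / lam := by field_simp
    rw [e2, lt_div_iff₀ hl0]
    linarith
  have hs1 : s < 1 := by
    refine hs.trans_le ?_
    rw [div_le_one (by linarith)]
    linarith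
  set θ := min (17 / 24) ((2 / 3 + (1 - 1 / lam) * (1 - s)) / 2) with hθ
  have hθ0 : 2 / 3 < θ := lt_min (by norm_num) (by linarith)
  have hθ1 : θ ≤ 17 / 24 := min_le_left _ _
  have hθ2 : θ < (1 - 1 / lam) * (1 - s) := lt_of_le_of_lt (min_le_right _ _) (by linarith)
  obtain ⟨R, δ, hδ, X₀, hX⟩ := target_short θ hθ0 hθ1
  exact ⟨R, δ, hδ, fun v n hn0 hn hv a b ha hab hone hgrow r M c hr hM hj =>
    Pool.Agent.K6.H83.MC.mills_pow (lam := lam) (by linarith) ha hab hn0 hn hv hone hgrow s θ hs1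
      (by linarith) hθ2 (fun k t => Target R δ (r k) (M k) (c k) ⌊t⌋₊) X₀
      (fun k x hx => hX x hx (r k) (M k) (c k) (hr k) (hM k) (hj k))⟩

end Pool.Agent.Results.MP_8efaaa_nt.MillsConstants
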