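import Pool.Agent.K6.H90.CN.Count

/-!
# MP_8efaaa_nt: polynomial phases at squarefree congruent numbers

The problem asks whether all squarefree `n ≡ 5, 6, 7 (mod 8)` are congruent numbers.

(1) The squarefree congruent `n ≡ 5, 6, 7 (mod 8)` are dense in the set of ALL squarefree
`n ≡ 5, 6, 7 (mod 8)` for the topology in which all phases `n ↦ e(f(n))`, `f` a real polynomial, are
continuous, with `≫ X^(1/3)` elements up to `X` in every neighbourhood; the closure in `ℤ` consists of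
the squarefree integers `h ≡ 5, 6, 7 (mod 8)`, negative ones included.
(2) If the values of several real polynomials `f_1, ..., f_k` at the integers are dense modulo `1`, then in
every class modulo `8 m` that contains squarefree integers `≡ 5, 6, 7 (mod 8)` the squarefree congruent
`n ≤ X` hit every box of side `2 δ` modulo `1` at least `c δ^k X^(1/3)` times, `c = c(k, m)`.

Idea of the proof.  For `u = r + 64 q² v` with `r ≡ -h (mod 64 q²)` the numbers
`n(v) = u (4 q² u - 1)(4 q² u + 1)` are congruent numbers with `n(v) ≡ h (mod 8 q)`; when `h` is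
squarefree at least a fifth of them are squarefree.  By Weyl's theorem in progressions and a sieve for
the squares of primes the phases with an irrational nonconstant coefficient have mean zero over the
squarefree `n(v)`.  The boxes are counted with the kernels `∏ cos (π x_i) ^ (2 N)`, which have
nonnegative Fourier coefficients; in (1) the rational combinations of the `f_i` only help, when `q` is
divisible by their denominators.
-/

set_option autoImplicit false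

namespace Pool.Agent.Results.MP_8efaaa_nt.PolynomialPhases

open Finset Polynomial

/-- `a` is a congruent number. -/
def Congruent (a : ℕ) : Prop :=
  ∃ x y z t : ℕ, 0 < x ∧ 0 < y ∧ 0 < z ∧ 0 < t ∧ x ^ 2 + a * y ^ 2 = z ^ 2 ∧ t ^ 2 + a * y ^ 2 = x ^ 2

/-- `n` is squarefree and `≡ 5, 6, 7 (mod 8)`: the numbers of the question. -/
def Target (n : ℕ) : Prop := Squarefree n ∧ (n % 8 = 5 ∨ n % 8 = 6 ∨ n % 8 = 7)

/-- The distance of `t` to the nearest integer is at most `δ`. -/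
def Near (δ t : ℝ) : Prop := |t - round t| ≤ δ

open Pool.Agent.K6.H90.CN

theorem near_mono {δ δ' t : ℝ} (h : δ ≤ δ') (ht : Near δ t) : Near δ' t := ht.trans h

theorem squarefree_of_local {h : ℤ} (hloc : ∀ k : ℕ, 1 ≤ k → ∃ n : ℕ, Target n ∧ (k : ℤ) ∣ (n : ℤ) - h) :
    Squarefree h ∧ (h % 8 = 5 ∨ h % 8 = 6 ∨ h % 8 = 7) := by
  constructor
  · intro x hx
    rcases eq_or_ne x 0 with h0 | h0
    · exfalso
      rw [h0, zero_mul, zero_dvd_iff] at hx
      obtain ⟨n, ⟨hn, -⟩, hd⟩ := hloc 4 (by norm_num)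
      rw [hx, sub_zero] at hd
      have h1 : 2 * 2 ∣ n := by exact_mod_cast hd
      have h2 := hn 2 h1
      rw [Nat.isUnit_iff] at h2
      omega
    · obtain ⟨n, ⟨hn, -⟩, hd⟩ := hloc (x * x).natAbs (Nat.one_le_iff_ne_zero.2 (Int.natAbs_ne_zero.2 (mul_ne_zero h0 h0)))
      rw [Int.natCast_natAbs, abs_dvd] at hd
      have h1 : x * x ∣ (n : ℤ) := by
        have := dvd_add hd hx
        rwa [sub_add_cancel] at this
      have h2 : x.natAbs * x.natAbs ∣ n := by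
        rw [← Int.natAbs_mul]
        exact Int.natAbs_dvd_natAbs.2 h1
      have h3 := hn _ h2
      rw [Nat.isUnit_iff] at h3
      exact Int.isUnit_iff_natAbs_eq.2 h3
  · obtain ⟨n, ⟨-, h8⟩, hd⟩ := hloc 8 (by norm_num)
    push_cast at hd
    omega

/-- the data for an integer `h`, with a small `r` -/
theorem exists_data' {h : ℤ} (hh : Squarefree h) {q : ℕ} (hq : 1 ≤ q) :
    ∃ r : ℕ, r ≤ 64 * q ^ 2 ∧ Data q r h := by
  have hq2 : (0 : ℤ) < ((64 * q ^ 2 : ℕ) : ℤ) := by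
    have : 0 < 64 * q ^ 2 := by positivity
    exact_mod_cast this
  have h1 := Int.emod_nonneg (-h - 1) hq2.ne'
  have h2 := Int.emod_lt_of_pos (-h - 1) hq2
  obtain ⟨s, hs⟩ := Int.eq_ofNat_of_zero_le h1
  refine ⟨s + 1, ?_, hq, by omega, hh, ?_⟩
  · rw [hs] at h2
    have h3 : (s : ℤ) < ((64 * q ^ 2 : ℕ) : ℤ) := h2
    have h4 : s < 64 * q ^ 2 := by exact_mod_cast h3
    omega
  · have h3 := Int.emod_add_mul_ediv (-h - 1) ((64 * q ^ 2 : ℕ) : ℤ)
    refine ⟨-((-h - 1) / ((64 * q ^ 2 : ℕ) : ℤ)), ?_⟩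
    rw [hs] at h3
    push_cast at h3 ⊢
    linarith

theorem rat_vals (F : ℝ[X]) (hF : ∀ j, 1 ≤ j → ¬ Irrational (F.coeff j)) :
    ∃ Q : ℕ, 1 ≤ Q ∧ ∀ a : ℤ, ∃ c : ℤ, (Q : ℝ) * (F.eval (a : ℝ) - F.coeff 0) = c := by
  set N := F.natDegree with hN
  have hrat : ∀ i, 1 ≤ i → ∃ a : ℚ, F.coeff i = (a : ℝ) := by
    intro i hi
    have h1 := hF i hi
    unfold Irrational at h1
    rw [not_not] at h1
    obtain ⟨a, ha⟩ := h1
    exact ⟨a, ha.symm⟩
  choose! a ha using hrat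
  set Q : ℕ := ∏ i ∈ Ico 1 (N + 1), (a i).den with hQ
  have hQ1 : 1 ≤ Q := by
    rw [hQ]
    exact Nat.one_le_iff_ne_zero.2 (Finset.prod_ne_zero_iff.2 fun i _ => (a i).den_ne_zero)
  have hQint : ∀ i ∈ Ico 1 (N + 1), ∃ b : ℤ, F.coeff i * (Q : ℝ) = (b : ℝ) := by
    intro i hi
    rw [mem_Ico] at hi
    have h1 : (a i).den ∣ Q := Finset.dvd_prod_of_mem _ (mem_Ico.2 hi)
    obtain ⟨c, hc⟩ := h1
    refine ⟨(a i).num * c, ?_⟩
    rw [ha i (by omega), hc]
    push_cast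
    have h2 : ((a i : ℚ) : ℝ) * ((a i).den : ℝ) = ((a i).num : ℝ) := by
      have := Rat.mul_den_eq_num (a i)
      exact_mod_cast congrArg (fun x : ℚ => (x : ℝ)) this
    rw [← mul_assoc, h2]
  refine ⟨Q, hQ1, fun x => ?_⟩
  choose! b hb using hQint
  refine ⟨∑ i ∈ Ico 1 (N + 1), b i * x ^ i, ?_⟩
  rw [eval_eq_sum_range, ← Finset.sum_range_add_sum_Ico _ (show 1 ≤ N + 1 by omega)]
  simp only [range_one, sum_singleton, pow_zero, mul_one, add_sub_cancel_left]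
  rw [Finset.mul_sum]
  push_cast
  refine Finset.sum_congr rfl fun i hi => ?_
  rw [← hb i hi]
  ring

theorem indep_of_dense {k : ℕ} (f : Fin k → ℝ[X])
    (hd : ∀ (β : Fin k → ℝ) (δ : ℝ), 0 < δ → ∃ n : ℤ, ∀ i, Near δ ((f i).eval (n : ℝ) - β i)) : Indep f := by
  classical
  intro z hz
  by_contra hcon
  push Not at hcon
  have hcon' : ∀ j, 1 ≤ j → ¬ Irrational ((comb f z).coeff j) := by
    intro j hj
    rw [coeff_comb]
    exact hcon j hj
  obtain ⟨Q, hQ1, hQ⟩ := rat_vals (comb f z) hcon'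
  have hQ0 : (0 : ℝ) < Q := by exact_mod_cast hQ1
  obtain ⟨i₀, hi₀⟩ := Function.ne_iff.1 hz
  have hi₀' : z i₀ ≠ 0 := hi₀
  have hz0 : (z i₀ : ℝ) ≠ 0 := by exact_mod_cast hi₀'
  set S : ℝ := ∑ i, |(z i : ℝ)| with hS
  have hS0 : 0 < S := by
    have h1 : |(z i₀ : ℝ)| ≤ S := Finset.single_le_sum (f := fun i => |(z i : ℝ)|) (fun i _ => abs_nonneg _) (mem_univ i₀)
    have h2 : 0 < |(z i₀ : ℝ)| := abs_pos.2 hz0
    linarith
  set β : Fin k → ℝ := fun i => if i = i₀ then ((comb f z).coeff 0 + 1 / (2 * Q)) / z i₀ else 0 with hβ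
  obtain ⟨n, hn⟩ := hd β (1 / (4 * Q * S)) (by positivity)
  obtain ⟨c, hc⟩ := hQ n
  have h1 : ∑ i, (z i : ℝ) * β i = (comb f z).coeff 0 + 1 / (2 * Q) := by
    rw [Finset.sum_eq_single i₀]
    · simp only [hβ, if_true]
      field_simp
    · intro i _ hi
      simp only [hβ, if_neg hi, mul_zero]
    · intro h
      exact absurd (mem_univ _) h
  set R : ℤ := ∑ i, z i * round ((f i).eval (n : ℝ) - β i) with hR
  have h2 : ∑ i, (z i : ℝ) * (((f i).eval (n : ℝ) - β i) - round ((f i).eval (n : ℝ) - β i)) =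
      (comb f z).eval (n : ℝ) - ((comb f z).coeff 0 + 1 / (2 * Q)) - R := by
    simp only [mul_sub, Finset.sum_sub_distrib]
    rw [← eval_comb]
    have h3 : ∑ i, (z i : ℝ) * β i = (comb f z).coeff 0 + 1 / (2 * Q) := h1
    rw [h3, hR]
    push_cast
    rfl
  have h3 : |∑ i, (z i : ℝ) * (((f i).eval (n : ℝ) - β i) - round ((f i).eval (n : ℝ) - β i))| ≤ 1 / (4 * Q) := by
    calc _ ≤ ∑ i, |(z i : ℝ) * (((f i).eval (n : ℝ) - β i) - round ((f i).eval (n : ℝ) - β i))| :=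
          Finset.abs_sum_le_sum_abs _ _
      _ ≤ ∑ i, |(z i : ℝ)| * (1 / (4 * Q * S)) := by
          refine Finset.sum_le_sum fun i _ => ?_
          rw [abs_mul]
          exact mul_le_mul_of_nonneg_left (hn i) (abs_nonneg _)
      _ = 1 / (4 * Q) := by
          rw [← Finset.sum_mul, ← hS]
          field_simp
  rw [h2] at h3
  have h4 : (2 * (Q : ℝ)) * ((comb f z).eval (n : ℝ) - ((comb f z).coeff 0 + 1 / (2 * Q)) - R) =
      ((2 * c - 1 - 2 * Q * R : ℤ) : ℝ) := by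
    push_cast
    have : (2 * (Q : ℝ)) * ((comb f z).eval (n : ℝ) - ((comb f z).coeff 0 + 1 / (2 * Q)) - R) =
        2 * ((Q : ℝ) * ((comb f z).eval (n : ℝ) - (comb f z).coeff 0)) - 1 - 2 * Q * R := by
      field_simp
      ring
    rw [this, hc]
  have h5 : |((2 * c - 1 - 2 * Q * R : ℤ) : ℝ)| ≤ 1 / 2 := by
    rw [← h4, abs_mul, abs_of_pos (by positivity : (0 : ℝ) < 2 * Q)]
    calc 2 * (Q : ℝ) * _ ≤ 2 * Q * (1 / (4 * Q)) := mul_le_mul_of_nonneg_left h3 (by positivity)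
      _ = 1 / 2 := by field_simp; norm_num
  have h6 : |(2 * c - 1 - 2 * Q * R : ℤ)| < 1 := by
    have h7 : (|(2 * c - 1 - 2 * Q * R : ℤ)| : ℝ) < 1 := by
      have := h5
      push_cast at this ⊢
      linarith
    exact_mod_cast h7
  have h8 := Int.abs_lt_one_iff.1 h6
  have h9 : 2 * (c - Q * R) = 1 := by linarith
  omega

/-- (1) For every integer `h` the following are equivalent: `h` is squarefree and `h ≡ 5, 6, 7 (mod 8)`;
for all real polynomials `f_1, ..., f_k` and `δ > 0` there is a squarefree `n ≡ 5, 6, 7 (mod 8)` with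
`‖f_i(n) - f_i(h)‖ ≤ δ` for all `i`; for all `f_1, ..., f_k` and `δ > 0` there are `c > 0` and `X₀` such
that for `X ≥ X₀` at least `c X^(1/3)` squarefree CONGRUENT numbers `n ≤ X`, `n ≡ 5, 6, 7 (mod 8)`, have
`‖f_i(n) - f_i(h)‖ ≤ δ` for all `i`.
(2) For all `k` and `m ≥ 1` there is `c > 0` such that for all real polynomials `f_1, ..., f_k` the
following are equivalent: each nontrivial integer combination of the `f_i` has an irrational coefficient
of positive degree; the vectors `(f_i(n))`, `n` an integer, are dense modulo `1`; for every squarefree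
integer `h ≡ 5, 6, 7 (mod 8)` and every `0 < δ ≤ 1/2` there is `X₀` such that for all `X ≥ X₀` and all real
`β_1, ..., β_k` at least `c δ^k X^(1/3)` squarefree congruent numbers `n ≤ X`, `n ≡ h (mod 8 m)`, have
`‖f_i(n) - β_i‖ ≤ δ` for all `i`. -/
theorem result :
    (∀ h : ℤ, List.TFAE [
      Squarefree h ∧ (h % 8 = 5 ∨ h % 8 = 6 ∨ h % 8 = 7),
      ∀ (k : ℕ) (f : Fin k → ℝ[X]) (δ : ℝ), 0 < δ →
        ∃ n : ℕ, Target n ∧ ∀ i, Near δ ((f i).eval (n : ℝ) - (f i).eval (h : ℝ)),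
      ∀ (k : ℕ) (f : Fin k → ℝ[X]) (δ : ℝ), 0 < δ → ∃ c X₀ : ℝ, 0 < c ∧ ∀ X : ℝ, X₀ ≤ X →
        c * X ^ ((1 : ℝ) / 3) ≤ (({n | (n : ℝ) ≤ X ∧ Target n ∧ Congruent n ∧
          ∀ i, Near δ ((f i).eval (n : ℝ) - (f i).eval (h : ℝ))} : Set ℕ).ncard : ℝ)]) ∧
    ∀ k m : ℕ, 1 ≤ m → ∃ c : ℝ, 0 < c ∧ ∀ f : Fin k → ℝ[X], List.TFAE [
      ∀ z : Fin k → ℤ, z ≠ 0 → ∃ j, 1 ≤ j ∧ Irrational (∑ i, (z i : ℝ) * (f i).coeff j),
      ∀ (β : Fin k → ℝ) (δ : ℝ), 0 < δ → ∃ n : ℤ, ∀ i, Near δ ((f i).eval (n : ℝ) - β i),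
      ∀ h : ℤ, Squarefree h → (h % 8 = 5 ∨ h % 8 = 6 ∨ h % 8 = 7) → ∀ δ : ℝ, 0 < δ → δ ≤ 1 / 2 →
        ∃ X₀ : ℝ, ∀ X : ℝ, X₀ ≤ X → ∀ β : Fin k → ℝ,
          c * δ ^ k * X ^ ((1 : ℝ) / 3) ≤ (({n | (n : ℝ) ≤ X ∧ Squarefree n ∧
            ((8 * m : ℕ) : ℤ) ∣ (n : ℤ) - h ∧ Congruent n ∧
            ∀ i, Near δ ((f i).eval (n : ℝ) - β i)} : Set ℕ).ncard : ℝ)] := by
  classical
  have hfin : ∀ (X : ℝ) (P : ℕ → Prop), ({n | (n : ℝ) ≤ X ∧ P n} : Set ℕ).Finite := by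
    intro X P
    refine (Set.finite_Iic ⌊X⌋₊).subset fun n hn => ?_
    exact Nat.le_floor hn.1
  refine ⟨fun h => ?_, fun k m hm => ?_⟩
  · tfae_have 1 → 3 := by
      rintro ⟨hh, h8⟩ k f δ hδ
      obtain ⟨Q, κ, hQ1, hκ, hcount⟩ := count_A (show 0 < min δ (1 / 2) by positivity) (min_le_right δ (1 / 2)) f
      obtain ⟨r, -, D⟩ := exists_data' hh hQ1
      obtain ⟨V₀, hV₀⟩ := hcount Q r h D dvd_rfl
      obtain ⟨X₀, hX₀⟩ := transfer D κ hκ.le V₀
      have hC : 0 < Cq Q r := one_le_Cq D.hq D.hr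
      have hC' : (0 : ℝ) < (Cq Q r : ℝ) := by exact_mod_cast hC
      refine ⟨κ / (2 * Cq Q r), X₀, by positivity, fun X hX => ?_⟩
      have h1 := hX₀ X hX (fun n => ∀ i, Near (min δ (1 / 2)) ((f i).eval (n : ℝ) - (f i).eval (h : ℝ))) (by
        intro V hV
        exact hV₀ V hV)
      refine h1.trans ?_
      have h2 : ({n | (n : ℝ) ≤ X ∧ (∃ v, Good Q r v ∧ n = fam Q (r + 64 * Q ^ 2 * v)) ∧
          ∀ i, Near (min δ (1 / 2)) ((f i).eval (n : ℝ) - (f i).eval (h : ℝ))} : Set ℕ) ⊆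
          {n | (n : ℝ) ≤ X ∧ Target n ∧ Congruent n ∧ ∀ i, Near δ ((f i).eval (n : ℝ) - (f i).eval (h : ℝ))} := by
        rintro n ⟨hn, ⟨v, hv, rfl⟩, hp⟩
        obtain ⟨hT, hC⟩ := target_fam D h8 hv
        exact ⟨hn, hT, hC, fun i => near_mono (min_le_left _ _) (hp i)⟩
      exact_mod_cast Set.ncard_le_ncard h2 (hfin X _)
    tfae_have 3 → 2 := by
      intro h3 k f δ hδ
      obtain ⟨c, X₀, hc, hX₀⟩ := h3 k f δ hδ
      have h1 := hX₀ (max X₀ 1) (le_max_left _ _)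
      have h2 : 0 < c * (max X₀ 1) ^ ((1 : ℝ) / 3) := mul_pos hc (Real.rpow_pos_of_pos (by positivity) _)
      have h4 : (0 : ℝ) < (({n | (n : ℝ) ≤ max X₀ 1 ∧ Target n ∧ Congruent n ∧
          ∀ i, Near δ ((f i).eval (n : ℝ) - (f i).eval (h : ℝ))} : Set ℕ).ncard : ℝ) := h2.trans_le h1
      have h5 : 0 < ({n | (n : ℝ) ≤ max X₀ 1 ∧ Target n ∧ Congruent n ∧
          ∀ i, Near δ ((f i).eval (n : ℝ) - (f i).eval (h : ℝ))} : Set ℕ).ncard := by exact_mod_cast h4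
      obtain ⟨n, -, hT, -, hn⟩ := Set.nonempty_of_ncard_ne_zero h5.ne'
      exact ⟨n, hT, hn⟩
    tfae_have 2 → 1 := by
      intro h2
      refine squarefree_of_local fun M hM => ?_
      have hM0 : (0 : ℝ) < M := by exact_mod_cast hM
      obtain ⟨n, hT, hn⟩ := h2 1 (fun _ => C (1 / (M : ℝ)) * X) (1 / (2 * M)) (by positivity)
      refine ⟨n, hT, ?_⟩
      have h3 := hn 0
      simp only [eval_mul, eval_C, eval_X] at h3
      unfold Near at h3
      set R := round (1 / (M : ℝ) * (n : ℝ) - 1 / (M : ℝ) * (h : ℝ)) with hR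
      have h4 : 1 / (M : ℝ) * (n : ℝ) - 1 / (M : ℝ) * (h : ℝ) - R = (((n : ℤ) - h - M * R : ℤ) : ℝ) / M := by
        push_cast
        field_simp
      rw [h4, abs_div, abs_of_pos hM0, div_le_div_iff₀ hM0 (by positivity)] at h3
      have h5 : |(((n : ℤ) - h - M * R : ℤ) : ℝ)| < 1 := by nlinarith
      have h6 : |((n : ℤ) - h - M * R : ℤ)| < 1 := by exact_mod_cast h5
      have h7 := Int.abs_lt_one_iff.1 h6
      exact ⟨R, by linarith⟩
    tfae_finish
  · have hm0 : (0 : ℝ) < m := by exact_mod_cast hm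
    set Cm : ℝ := 16 * (m : ℝ) ^ 4 * (128 * (m : ℝ) ^ 2) ^ 3 with hCm
    have hCm0 : 0 < Cm := by positivity
    refine ⟨1 / 20 * (1 / √(k + 2)) ^ k / (2 * Cm), by positivity, fun f => ?_⟩
    tfae_have 1 → 3 := by
      intro hf h hh h8 δ hδ0 hδ
      obtain ⟨r, hr, D⟩ := exists_data' hh hm
      obtain ⟨V₀, hV₀⟩ := count_B hδ0 hδ D f hf
      obtain ⟨X₀, hX₀⟩ := transfer D (1 / 20 * (δ / √(k + 2)) ^ k) (by positivity) V₀
      refine ⟨max X₀ 0, fun X hX β => ?_⟩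
      have hX0 : 0 ≤ X := (le_max_right _ _).trans hX
      have h1 := hX₀ X ((le_max_left _ _).trans hX) (fun n => ∀ i, Near δ ((f i).eval (n : ℝ) - β i)) (by
        intro V hV
        exact hV₀ V hV β)
      have hC : 0 < Cq m r := one_le_Cq D.hq D.hr
      have hC' : (0 : ℝ) < (Cq m r : ℝ) := by exact_mod_cast hC
      have hCle : (Cq m r : ℝ) ≤ Cm := by
        have h2 : Cq m r ≤ 16 * m ^ 4 * (128 * m ^ 2) ^ 3 := by
          unfold Cq
          exact Nat.mul_le_mul_left _ (Nat.pow_le_pow_left (by omega) 3)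
        rw [hCm]
        exact_mod_cast h2
      have h3 : 1 / 20 * (1 / √(k + 2)) ^ k / (2 * Cm) * δ ^ k * X ^ ((1 : ℝ) / 3) ≤
          1 / 20 * (δ / √(k + 2)) ^ k / (2 * Cq m r) * X ^ ((1 : ℝ) / 3) := by
        refine mul_le_mul_of_nonneg_right ?_ (Real.rpow_nonneg hX0 _)
        have h4 : 1 / 20 * (1 / √(k + 2)) ^ k / (2 * Cm) * δ ^ k = 1 / 20 * (δ / √(k + 2)) ^ k / (2 * Cm) := by
          rw [div_pow, div_pow, one_pow]
          ring
        rw [h4]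
        gcongr
      refine h3.trans (h1.trans ?_)
      have h2 : ({n | (n : ℝ) ≤ X ∧ (∃ v, Good m r v ∧ n = fam m (r + 64 * m ^ 2 * v)) ∧
          ∀ i, Near δ ((f i).eval (n : ℝ) - β i)} : Set ℕ) ⊆
          {n | (n : ℝ) ≤ X ∧ Squarefree n ∧ ((8 * m : ℕ) : ℤ) ∣ (n : ℤ) - h ∧ Congruent n ∧
            ∀ i, Near δ ((f i).eval (n : ℝ) - β i)} := by
        rintro n ⟨hn, ⟨v, hv, rfl⟩, hp⟩
        obtain ⟨hT, hC⟩ := target_fam D h8 hv
        exact ⟨hn, hT.1, fam_mod D v, hC, hp⟩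
      exact_mod_cast Set.ncard_le_ncard h2 (hfin X _)
    tfae_have 3 → 2 := by
      intro h3 β δ hδ
      have hh : Squarefree (5 : ℤ) := Int.squarefree_natCast.2 (Nat.Prime.prime (by norm_num : Nat.Prime 5)).squarefree
      obtain ⟨X₀, hX₀⟩ := h3 5 hh (by norm_num) (min δ (1 / 2)) (by positivity) (min_le_right _ _)
      have h1 := hX₀ (max X₀ 1) (le_max_left _ _) β
      have h2 : 0 < 1 / 20 * (1 / √((k : ℝ) + 2)) ^ k / (2 * Cm) * (min δ (1 / 2)) ^ k * (max X₀ 1) ^ ((1 : ℝ) / 3) := by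
        have h5 : 0 < (max X₀ 1) ^ ((1 : ℝ) / 3) := Real.rpow_pos_of_pos (by positivity) _
        have h6 : 0 < min δ (1 / 2) := by positivity
        positivity
      have h4 := h2.trans_le h1
      have h5 : 0 < ({n | (n : ℝ) ≤ max X₀ 1 ∧ Squarefree n ∧ ((8 * m : ℕ) : ℤ) ∣ (n : ℤ) - 5 ∧ Congruent n ∧
          ∀ i, Near (min δ (1 / 2)) ((f i).eval (n : ℝ) - β i)} : Set ℕ).ncard := by exact_mod_cast h4
      obtain ⟨n, -, -, -, -, hn⟩ := Set.nonempty_of_ncard_ne_zero h5.ne'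
      refine ⟨n, fun i => ?_⟩
      have := near_mono (min_le_left δ (1 / 2)) (hn i)
      exact_mod_cast this
    tfae_have 2 → 1 := indep_of_dense f
    tfae_finish

end Pool.Agent.Results.MP_8efaaa_nt.PolynomialPhases
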