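import Pool.Agent.K6.H90.CN.Fin

/-!
# MP_8efaaa_nt: recurrence along polynomial values of squarefree congruent numbers

The problem asks whether all squarefree `n ≡ 5, 6, 7 (mod 8)` are congruent numbers.  Let `p` be a
nonconstant integer polynomial.  The values `|p(n)|` at the squarefree *congruent* `n ≡ 5, 6, 7 (mod 8)`
form a set of recurrence if and only if the values at *all* squarefree `n ≡ 5, 6, 7 (mod 8)` do, if and
only if each `k ≥ 1` divides `p(n)` for some squarefree `n ≡ 5, 6, 7 (mod 8)`; and then it is a set of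
nice recurrence, with a finite uniform form.  For `p(n) = n - h` the condition says that `h` itself is
squarefree and `≡ 5, 6, 7 (mod 8)`.  The same holds when `n` is confined to a residue class.

Idea of the proof.  For `u = r + 64 q² v` with `r ≡ -h (mod 64 q²)` the numbers
`n(v) = u (4 q² u - 1)(4 q² u + 1)` are congruent numbers with `n(v) ≡ h (mod 8 q)`; when `h` is
squarefree at least a fifth of them are squarefree.  By Weyl's theorem in the progressions and a sieve
for the squares of primes the means of `e(α p(n(v)))` over the squarefree `n(v)` tend to `0` for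
irrational `α`, and `p(n(v)) ≡ 0 (mod q)` when `q` divides `p(h)`.  So for a measure on the circle the
torsion points of order dividing `q = K!` contribute fully, the irrational points nothing on average,
and the other torsion points have small measure.
-/

set_option autoImplicit false

namespace Pool.Agent.Results.MP_8efaaa_nt.PolynomialRecurrence

open MeasureTheory Finset Polynomial

universe u

/-- `a` is a congruent number. -/
def Congruent (a : ℕ) : Prop :=
  ∃ x y z t : ℕ, 0 < x ∧ 0 < y ∧ 0 < z ∧ 0 < t ∧ x ^ 2 + a * y ^ 2 = z ^ 2 ∧ t ^ 2 + a * y ^ 2 = x ^ 2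

/-- `n` is squarefree, `n ≡ 5, 6, 7 (mod 8)` (the numbers of the question) and `n ≡ a (mod m)`. -/
def Target (m a n : ℕ) : Prop := Squarefree n ∧ (n % 8 = 5 ∨ n % 8 = 6 ∨ n % 8 = 7) ∧ n ≡ a [MOD m]

/-- `A` has positive upper density. -/
def PosUpperDensity (A : Set ℕ) : Prop :=
  ∃ δ : ℝ, 0 < δ ∧ ∀ N₀ : ℕ, ∃ N : ℕ, N₀ ≤ N ∧ δ * N ≤ ((A ∩ {x | x < N}).ncard : ℝ)

/-- For every measure preserving system `(X, μ, T)` on a probability space, every measurable `A` and
every `ε > 0` there is `d ∈ R` with `μ(A ∩ T⁻ᵈ A) > μ(A)² - ε`. -/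
def NiceRecurrence (R : Set ℕ) : Prop :=
  ∀ (X : Type u) [MeasurableSpace X] (μ : Measure X) [IsProbabilityMeasure μ] (T : X → X),
    MeasurePreserving T μ μ → ∀ A : Set X, MeasurableSet A → ∀ ε : ℝ, 0 < ε →
      ∃ d ∈ R, (μ A).toReal ^ 2 - ε < (μ (A ∩ T^[d] ⁻¹' A)).toReal

open Pool.Agent.K6.H90.CN in
/-- a squarefree integer `h ≡ 5, 6, 7 (mod 8)` is congruent modulo `k` to a squarefree natural number in
the three classes -/
theorem exists_target' {h : ℤ} (hh : Squarefree h) (h8 : h % 8 = 5 ∨ h % 8 = 6 ∨ h % 8 = 7) {k : ℕ} (hk : 1 ≤ k) :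
    ∃ n : ℕ, (Squarefree n ∧ (n % 8 = 5 ∨ n % 8 = 6 ∨ n % 8 = 7)) ∧ (k : ℤ) ∣ (n : ℤ) - h := by
  classical
  have hpos : (1 : ℤ) ≤ 64 * (k : ℤ) ^ 2 * (|h| + 1) - h := by
    have h1 : (1 : ℤ) ≤ (k : ℤ) ^ 2 := by exact_mod_cast Nat.one_le_pow 2 k hk
    have h2 := le_abs_self h
    have h3 := abs_nonneg h
    nlinarith
  obtain ⟨r, hr⟩ := Int.eq_ofNat_of_zero_le (show 0 ≤ 64 * (k : ℤ) ^ 2 * (|h| + 1) - h by linarith)
  have D : Data k r h := by
    refine ⟨hk, by omega, hh, ⟨|h| + 1, ?_⟩⟩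
    rw [← hr]
    push_cast
    ring
  obtain ⟨V, hV⟩ := ((card_good D).and (Filter.eventually_ge_atTop 1)).exists
  have h1 : (0 : ℝ) < (((range V).filter fun v => Good k r v).card : ℝ) := by
    have : (0 : ℝ) < V := by exact_mod_cast hV.2
    linarith [hV.1]
  have h2 : 0 < ((range V).filter fun v => Good k r v).card := by exact_mod_cast h1
  obtain ⟨v, hv⟩ := Finset.card_pos.1 h2
  refine ⟨fam k (r + 64 * k ^ 2 * v), (target_fam D h8 (mem_filter.1 hv).2).1, ?_⟩
  refine Dvd.dvd.trans ⟨8, ?_⟩ (fam_mod D v)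
  push_cast
  ring

theorem exists_target {h : ℤ} (hh : Squarefree h) (h8 : h % 8 = 5 ∨ h % 8 = 6 ∨ h % 8 = 7) {m a : ℕ} (hm : 1 ≤ m)
    (ha : (m : ℤ) ∣ h - a) {k : ℕ} (hk : 1 ≤ k) : ∃ n : ℕ, Target m a n ∧ (k : ℤ) ∣ (n : ℤ) - h := by
  obtain ⟨n, ⟨h1, h2⟩, h3⟩ := exists_target' hh h8 (k := m * k) (Nat.mul_pos hm hk)
  push_cast at h3
  refine ⟨n, ⟨h1, h2, ?_⟩, (Dvd.intro_left _ rfl).trans h3⟩
  have h4 : (m : ℤ) ∣ (n : ℤ) - a := by
    have h5 := dvd_add ((Dvd.intro _ rfl : (m : ℤ) ∣ m * k).trans h3) ha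
    rwa [sub_add_sub_cancel] at h5
  exact (Nat.modEq_iff_dvd.2 h4).symm

theorem density_multiples {k : ℕ} (hk : 1 ≤ k) : PosUpperDensity {x | k ∣ x} := by
  classical
  have hk0 : (0 : ℝ) < k := by exact_mod_cast hk
  refine ⟨1 / (2 * k), by positivity, fun N₀ => ⟨max N₀ (2 * k), le_max_left _ _, ?_⟩⟩
  set N := max N₀ (2 * k) with hN
  have hN2 : 2 * k ≤ N := le_max_right _ _
  have h1 : ({x | k ∣ x} ∩ {x | x < N} : Set ℕ) = ((range N).filter fun x => k ∣ x : Finset ℕ) := by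
    ext x
    simp [and_comm]
  rw [h1, Set.ncard_coe_finset]
  have h2 : N / k ≤ ((range N).filter fun x => k ∣ x).card := by
    have h3 : (range (N / k)).card ≤ ((range N).filter fun x => k ∣ x).card := by
      refine Finset.card_le_card_of_injOn (fun i => k * i) ?_ ?_
      · intro i hi
        rw [Finset.mem_coe, mem_range] at hi
        rw [Finset.mem_coe, mem_filter, mem_range]
        refine ⟨?_, Dvd.intro _ rfl⟩
        have h4 : k * (i + 1) ≤ k * (N / k) := Nat.mul_le_mul_left _ hi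
        have h5 := Nat.mul_div_le N k
        show k * i < N
        rw [Nat.mul_add] at h4
        omega
      · intro i _ j _ hij
        exact Nat.eq_of_mul_eq_mul_left (by omega) hij
    rwa [card_range] at h3
  have h3 : (N : ℝ) < k * ((N / k : ℕ) : ℝ) + k := by
    have := Nat.lt_mul_div_succ N (show 0 < k by omega)
    rw [Nat.mul_add, Nat.mul_one] at this
    exact_mod_cast this
  have h4 : (2 : ℝ) * k ≤ N := by exact_mod_cast hN2
  have h5 : ((N / k : ℕ) : ℝ) ≤ (((range N).filter fun x => k ∣ x).card : ℝ) := by exact_mod_cast h2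
  have h6 : 1 / (2 * (k : ℝ)) * N ≤ ((N / k : ℕ) : ℝ) := by
    rw [one_div_mul_eq_div, div_le_iff₀ (by positivity)]
    nlinarith
  linarith

/-- Let `T = {n squarefree, n ≡ 5, 6, 7 (mod 8), n ≡ a (mod m)}`, where `m ≥ 1` and `a` are any.
(1) For every nonconstant integer polynomial `p` the following are equivalent: (a) every `k ≥ 1`
divides `p(n)` for some `n ∈ T`; (b) every set of positive upper density has two elements whose
difference is `|p(n)| > 0` for some `n ∈ T`; (c) for every `B` the numbers `|p(n)| > 0`, `n ≥ B` a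
*congruent* number of `T`, form a set of nice recurrence; (d) for every `ε > 0` and every `B` there are
a finite set `F` of congruent numbers `n ≥ B` of `T` with `p(n) ≠ 0`, and `N₀`, such that for all
`N ≥ N₀` and all `A ⊆ {0, ..., N - 1}` some `n ∈ F` has at least `|A|²/N - ε N` numbers `x ∈ A` with
`x + |p(n)| ∈ A`.
(2) For `p(n) = n - h`, `h` any integer, condition (a) says that `h` is squarefree,
`h ≡ 5, 6, 7 (mod 8)` and `h ≡ a (mod m)`. -/
theorem result (m a : ℕ) (hm : 1 ≤ m) :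
    (∀ p : ℤ[X], 1 ≤ p.natDegree → List.TFAE [
      ∀ k : ℕ, 1 ≤ k → ∃ n : ℕ, Target m a n ∧ (k : ℤ) ∣ p.eval (n : ℤ),
      ∀ A : Set ℕ, PosUpperDensity A → ∃ x ∈ A, ∃ y ∈ A, x < y ∧
        ∃ n : ℕ, Target m a n ∧ y = x + (p.eval (n : ℤ)).natAbs,
      ∀ B : ℕ, NiceRecurrence.{u} {d | 0 < d ∧
        ∃ n : ℕ, B ≤ n ∧ Target m a n ∧ Congruent n ∧ d = (p.eval (n : ℤ)).natAbs},
      ∀ (ε : ℝ) (B : ℕ), 0 < ε → ∃ F : Finset ℕ,
        (∀ n ∈ F, B ≤ n ∧ Target m a n ∧ Congruent n ∧ p.eval (n : ℤ) ≠ 0) ∧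
        ∃ N₀ : ℕ, ∀ N : ℕ, N₀ ≤ N → ∀ A : Finset ℕ, A ⊆ range N → ∃ n ∈ F,
          (A.card : ℝ) ^ 2 / N - ε * N ≤
            ((A.filter fun x => x + (p.eval (n : ℤ)).natAbs ∈ A).card : ℝ)]) ∧
    ∀ h : ℤ, (∀ k : ℕ, 1 ≤ k → ∃ n : ℕ, Target m a n ∧ (k : ℤ) ∣ (X - C h : ℤ[X]).eval (n : ℤ)) ↔
      Squarefree h ∧ (h % 8 = 5 ∨ h % 8 = 6 ∨ h % 8 = 7) ∧ (m : ℤ) ∣ h - a := by
  classical
  refine ⟨fun p hp => ?_, fun h => ?_⟩
  · -- the equivalences
    set R : ℕ → Set ℕ := fun B => {d | 0 < d ∧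
        ∃ n : ℕ, B ≤ n ∧ Target m a n ∧ Congruent n ∧ d = (p.eval (n : ℤ)).natAbs} with hR
    have hac : (∀ k : ℕ, 1 ≤ k → ∃ n : ℕ, Target m a n ∧ (k : ℤ) ∣ p.eval (n : ℤ)) → ∀ B,
        Pool.Agent.Results.MP_e00215_an.SpectralNiceRecurrence.SpectralRecurrence (R B) := by
      intro hloc B σ _ ε hε
      obtain ⟨n, hB, hT, hma, hC, h0, hlt⟩ := Pool.Agent.K6.H90.CN.spectral p hp m a hm (fun k hk => by
        obtain ⟨n, ⟨h1, h2, h3⟩, h4⟩ := hloc k hk
        exact ⟨n, ⟨h1, h2⟩, h3, h4⟩) B σ ε hε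
      refine ⟨(p.eval (n : ℤ)).natAbs, ⟨Int.natAbs_pos.2 h0, n, hB, ⟨hT.1, hT.2, hma⟩, hC, rfl⟩, ?_⟩
      rw [Int.natCast_natAbs]
      rcases abs_choice (p.eval (n : ℤ)) with h1 | h1
      · rw [h1]; exact hlt
      · rw [h1]
        simp only [fourier_neg, Complex.conj_re]
        exact hlt
    tfae_have 1 → 3 := by
      intro hloc B X _ μ _ T hT A hA ε hε
      have h1 := ((Pool.Agent.Results.MP_e00215_an.SpectralNiceRecurrence.result.{u, 0, 0, 0} (R B)).1.out 4 0).1
        (hac hloc B)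
      rcases eq_or_ne (μ A) 0 with h0 | h0
      · obtain ⟨d, hd, -⟩ := h1 X μ T hT Set.univ MeasurableSet.univ (by simp) ε hε
        refine ⟨d, hd, ?_⟩
        rw [h0]
        have h2 : (0 : ℝ) ≤ (μ (A ∩ T^[d] ⁻¹' A)).toReal := ENNReal.toReal_nonneg
        simp only [ENNReal.toReal_zero]
        linarith
      · exact h1 X μ T hT A hA (pos_iff_ne_zero.2 h0) ε hε
    tfae_have 3 → 4 := by
      intro hN ε B hε
      have h1 : Pool.Agent.Results.MP_e00215_an.SpectralNiceRecurrence.NiceRecurrence.{u} (R B) :=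
        fun X _ μ _ T hT A hA _ ε hε => hN B X μ T hT A hA ε hε
      have h2 := ((Pool.Agent.Results.MP_e00215_an.SpectralNiceRecurrence.result.{u, 0, 0, 0} (R B)).1.out 0 2).1 h1
      obtain ⟨F, hF, N₀, -, hfin⟩ := Pool.Agent.K6.H90.CN.finite_form (R B) h2 ε hε
      have hch : ∀ d : ℕ, ∃ n : ℕ, d ∈ F → (B ≤ n ∧ Target m a n ∧ Congruent n ∧ p.eval (n : ℤ) ≠ 0 ∧
          d = (p.eval (n : ℤ)).natAbs) := by
        intro d
        by_cases hd : d ∈ F
        · obtain ⟨h0, n, hB, hT, hC, he⟩ := hF d hd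
          exact ⟨n, fun _ => ⟨hB, hT, hC, by rw [← Int.natAbs_ne_zero]; omega, he⟩⟩
        · exact ⟨0, fun h => absurd h hd⟩
      choose n hn using hch
      refine ⟨F.image n, ?_, N₀, fun N hN A hA => ?_⟩
      · intro m hm
        obtain ⟨d, hd, rfl⟩ := mem_image.1 hm
        obtain ⟨hB, hT, hC, h0, -⟩ := hn d hd
        exact ⟨hB, hT, hC, h0⟩
      · obtain ⟨d, hd, hle⟩ := hfin N hN A hA
        refine ⟨n d, mem_image_of_mem n hd, ?_⟩
        rw [← (hn d hd).2.2.2.2]
        exact hle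
    tfae_have 4 → 2 := by
      intro hfin A hA
      obtain ⟨δ, hδ, hup⟩ := hA
      obtain ⟨F, hF, N₀, hN₀⟩ := hfin (δ ^ 2 / 2) 0 (by positivity)
      obtain ⟨N, hN, hle⟩ := hup (max N₀ 1)
      have hN1 : 1 ≤ N := (le_max_right _ _).trans hN
      have hN0 : (0 : ℝ) < N := by exact_mod_cast hN1
      set A' : Finset ℕ := (range N).filter fun x => x ∈ A with hA'
      have hcard : ((A ∩ {x | x < N}).ncard : ℝ) = (A'.card : ℝ) := by
        rw [← Set.ncard_coe_finset]
        congr 2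
        ext x
        simp [hA', and_comm]
      rw [hcard] at hle
      obtain ⟨n, hn, hc⟩ := hN₀ N ((le_max_left _ _).trans hN) A' (filter_subset _ _)
      obtain ⟨-, hT, -, h0⟩ := hF n hn
      have h1 : δ ^ 2 * N ≤ (A'.card : ℝ) ^ 2 / N := by
        rw [le_div_iff₀ hN0]
        calc δ ^ 2 * N * N = (δ * N) ^ 2 := by ring
          _ ≤ _ := pow_le_pow_left₀ (by positivity) hle 2
      have h2 : (0 : ℝ) < ((A'.filter fun x => x + (p.eval (n : ℤ)).natAbs ∈ A').card : ℝ) := by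
        have : 0 < δ ^ 2 / 2 * N := by positivity
        linarith
      have h3 : 0 < (A'.filter fun x => x + (p.eval (n : ℤ)).natAbs ∈ A').card := by exact_mod_cast h2
      obtain ⟨x, hx⟩ := Finset.card_pos.1 h3
      rw [mem_filter, hA', mem_filter, mem_filter] at hx
      have h4 := Int.natAbs_pos.2 h0
      exact ⟨x, hx.1.2, _, hx.2.2, by omega, n, hT, rfl⟩
    tfae_have 2 → 1 := by
      intro hb k hk
      obtain ⟨x, hx, y, hy, hxy, n, hT, he⟩ := hb _ (density_multiples hk)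
      refine ⟨n, hT, ?_⟩
      have h1 : k ∣ (p.eval (n : ℤ)).natAbs := by
        have h2 : k ∣ x := hx
        have h3 : k ∣ x + (p.eval (n : ℤ)).natAbs := by rw [← he]; exact hy
        exact (Nat.dvd_add_right h2).1 h3
      exact Int.natCast_dvd.2 h1
    tfae_finish
  · -- the linear polynomials
    have hev : ∀ n : ℕ, (X - C h : ℤ[X]).eval (n : ℤ) = (n : ℤ) - h := fun n => by simp
    simp only [hev]
    constructor
    · intro hloc
      constructor
      · intro x hx
        rcases eq_or_ne x 0 with h0 | h0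
        · -- `h = 0`
          exfalso
          rw [h0, zero_mul, zero_dvd_iff] at hx
          obtain ⟨n, ⟨hn, -⟩, hd⟩ := hloc 4 (by norm_num)
          rw [hx, sub_zero] at hd
          have h1 : 2 * 2 ∣ n := by exact_mod_cast hd
          have h2 := hn 2 h1
          rw [Nat.isUnit_iff] at h2
          omega
        · obtain ⟨n, ⟨hn, -⟩, hd⟩ := hloc (x * x).natAbs (Nat.one_le_iff_ne_zero.2 (Int.natAbs_ne_zero.2 (mul_ne_zero h0 h0)))
          rw [Int.natCast_natAbs, abs_dvd] at hd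
          have h1 : x * x ∣ (n : ℤ) := by
            have := dvd_add hd hx
            rwa [sub_add_cancel] at this
          have h2 : x.natAbs * x.natAbs ∣ n := by
            rw [← Int.natAbs_mul]
            exact Int.natAbs_dvd_natAbs.2 h1
          have h3 := hn _ h2
          rw [Nat.isUnit_iff] at h3
          exact Int.isUnit_iff_natAbs_eq.2 h3
      · constructor
        · obtain ⟨n, ⟨-, h8, -⟩, hd⟩ := hloc 8 (by norm_num)
          push_cast at hd
          omega
        · obtain ⟨n, ⟨-, -, hma⟩, hd⟩ := hloc m hm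
          have h1 : (m : ℤ) ∣ (n : ℤ) - a := Nat.modEq_iff_dvd.1 hma.symm
          have h2 := dvd_sub h1 hd
          rwa [show (n : ℤ) - a - ((n : ℤ) - h) = h - a by ring] at h2
    · rintro ⟨hh, h8, ha⟩ k hk
      exact exists_target hh h8 hm ha hk

end Pool.Agent.Results.MP_8efaaa_nt.PolynomialRecurrence
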