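import Mathlib

/-!
# Three congruent numbers with prescribed quotients

If `x + y + z = 0` and `N = 3 (x - y) (y - z) (z - x)` then the three numbers `x N`, `y N`, `z N` are, up to
sign, congruent numbers: the right triangle of `x N` is the one given by `(3 x, z - y)`. On the conic
`a x ^ 2 + b y ^ 2 = (a + b) z ^ 2`, which has infinitely many rational points, this gives three congruent
numbers `b N`, `a N`, `(a + b) N` (up to squares). If `b` is odd, `a > b` and `a / b` is `1`, `2`, `4` or `9`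
modulo `16` there are such points for which the squarefree parts of all three numbers lie in the classes
`5`, `6`, `7` modulo `8`: the classes are `6, 6, 7` if `a / b` is `1` modulo `8`, they are `7, 6, 5` if `a / b`
is `2` modulo `16` (so in this case there is one number in each of the three classes) and `6, 6, 6` if
`a / b` is `4` modulo `16`.
-/

set_option autoImplicit false

namespace Pool.Agent.Results.MP_8efaaa_nt.PrescribedQuotients

/-- `a` is a congruent number: `x² + a y² = z²`, `x² - a y² = t²` is solvable in positive integers. -/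
def Congruent (a : ℕ) : Prop :=
  ∃ x y z t : ℕ, 0 < x ∧ 0 < y ∧ 0 < z ∧ 0 < t ∧ x ^ 2 + a * y ^ 2 = z ^ 2 ∧
    t ^ 2 + a * y ^ 2 = x ^ 2

/-- The numbers of the question: `n` is squarefree and `n ≡ 5, 6, 7 (mod 8)`. -/
def Target (n : ℕ) : Prop := Squarefree n ∧ (n % 8 = 5 ∨ n % 8 = 6 ∨ n % 8 = 7)

theorem cong_of_int {a : ℕ} {X Y Z T : ℤ} (hX : X ≠ 0) (hY : Y ≠ 0) (hZ : Z ≠ 0) (hT : T ≠ 0)
    (h1 : X ^ 2 + a * Y ^ 2 = Z ^ 2) (h2 : T ^ 2 + a * Y ^ 2 = X ^ 2) : Congruent a := by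
  refine ⟨X.natAbs, Y.natAbs, Z.natAbs, T.natAbs, Int.natAbs_pos.2 hX, Int.natAbs_pos.2 hY,
    Int.natAbs_pos.2 hZ, Int.natAbs_pos.2 hT, ?_, ?_⟩
  · zify
    simpa [sq_abs] using h1
  · zify
    simpa [sq_abs] using h2

theorem cong_scale {a k : ℕ} (hk : 0 < k) (h : Congruent (a * k ^ 2)) : Congruent a := by
  obtain ⟨x, y, z, t, hx, hy, hz, ht, h1, h2⟩ := h
  refine ⟨x, k * y, z, t, hx, Nat.mul_pos hk hy, hz, ht, ?_, ?_⟩
  · rw [← h1]; ring
  · rw [← h2]; ring

theorem cong_scale' {a k : ℕ} (hk : 0 < k) (h : Congruent a) : Congruent (a * k ^ 2) := by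
  obtain ⟨x, y, z, t, hx, hy, hz, ht, h1, h2⟩ := h
  refine ⟨k * x, y, k * z, k * t, Nat.mul_pos hk hx, hy, Nat.mul_pos hk hz, Nat.mul_pos hk ht, ?_, ?_⟩
  · rw [mul_pow, mul_pow, ← h1]; ring
  · rw [mul_pow, mul_pow, ← h2]; ring

theorem sq_ne_two_mul (m n : ℤ) (hn : n ≠ 0) : m ^ 2 ≠ 2 * n ^ 2 := by
  intro h
  have hn' : (n : ℝ) ≠ 0 := by exact_mod_cast hn
  have h1 : ((m : ℝ) / n) ^ 2 = 2 := by
    have : (m : ℝ) ^ 2 = 2 * (n : ℝ) ^ 2 := by exact_mod_cast h
    rw [div_pow, this]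
    field_simp
  have h2 : |((m : ℝ) / n)| = Real.sqrt 2 := by
    rw [← h1, Real.sqrt_sq_eq_abs]
  exact irrational_sqrt_two ⟨|(m : ℚ) / n|, by rw [← h2]; push_cast; rfl⟩

/-- The right triangle given by `(u, w)`. -/
theorem cong_of_pair (A : ℕ) (u w Y : ℤ) (hu : u ≠ 0) (hw : w ≠ 0) (hY : Y ≠ 0)
    (h : A * Y ^ 2 = 4 * u * w * (u ^ 2 - w ^ 2)) : Congruent A := by
  have hpos : 0 < u ^ 2 + w ^ 2 := by positivity
  refine cong_of_int (X := u ^ 2 + w ^ 2) (Y := Y) (Z := u ^ 2 + 2 * u * w - w ^ 2)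
    (T := u ^ 2 - 2 * u * w - w ^ 2) hpos.ne' hY ?_ ?_ ?_ ?_
  · intro h0
    exact sq_ne_two_mul (u + w) w hw (by linear_combination h0)
  · intro h0
    exact sq_ne_two_mul (u - w) w hw (by linear_combination h0)
  · rw [h]; ring
  · rw [h]; ring

/-- The family. -/
theorem cong_family (b e : ℕ) (hb : 0 < b) (he : 0 < e) :
    Congruent (b * (3 * (3 * b + e) * e * (3 * b + 2 * e))) ∧
      Congruent ((b + e) * (3 * (3 * b + e) * e * (3 * b + 2 * e))) ∧
      Congruent ((2 * b + e) * (3 * (3 * b + e) * e * (3 * b + 2 * e))) := by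
  refine ⟨?_, ?_, ?_⟩
  · refine cong_of_pair _ (3 * b + 2 * e) (3 * b) 4 (by positivity) (by positivity) (by norm_num) ?_
    push_cast
    ring
  · refine cong_of_pair _ (3 * (b + e)) (3 * b + e) 4 (by positivity) (by positivity) (by norm_num) ?_
    push_cast
    ring
  · refine cong_of_pair _ (3 * (2 * b + e)) e 4 (by positivity) (by positivity) (by norm_num) ?_
    push_cast
    ring

theorem odd_sq16 (c : ℕ) (hc : c % 2 = 1) : (c ^ 2) % 16 = 1 ∨ (c ^ 2) % 16 = 9 := by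
  have : c % 16 = 1 ∨ c % 16 = 3 ∨ c % 16 = 5 ∨ c % 16 = 7 ∨ c % 16 = 9 ∨ c % 16 = 11 ∨
      c % 16 = 13 ∨ c % 16 = 15 := by omega
  rcases this with h | h | h | h | h | h | h | h <;> simp [Nat.pow_mod, h]

/-- The class of a squarefree part, base case. -/
theorem part_base {k m c : ℕ} (h : (k ^ 2 * m) % 16 = c % 16) (hc : c % 4 ≠ 0) :
    m % 8 = c % 8 ∧ (c % 2 = 0 → m % 16 = c % 16) := by
  have hkodd : k % 2 = 1 := by
    by_contra h0
    have h1 : k % 2 = 0 := by omega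
    obtain ⟨c', hc'⟩ := Nat.dvd_of_mod_eq_zero h1
    have h2 : k ^ 2 * m = 4 * (c' ^ 2 * m) := by rw [hc']; ring
    omega
  rcases odd_sq16 k hkodd with h1 | h1
  · rw [Nat.mul_mod, h1] at h
    omega
  · rw [Nat.mul_mod, h1] at h
    omega

/-- The class of a squarefree part, descent. -/
theorem part_step {k m x : ℕ} (hm : m % 4 ≠ 0) (h : k ^ 2 * m = 4 * x) : ∃ k', k' ^ 2 * m = x := by
  have hkeven : k % 2 = 0 := by
    by_contra h0
    have hkodd : k % 2 = 1 := by omega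
    rcases odd_sq16 k hkodd with h1 | h1
    · have h2 : (k ^ 2 * m) % 16 = (1 * (m % 16)) % 16 := by rw [Nat.mul_mod, h1]
      omega
    · have h2 : (k ^ 2 * m) % 16 = (9 * (m % 16)) % 16 := by rw [Nat.mul_mod, h1]
      omega
  obtain ⟨c, hc⟩ := Nat.dvd_of_mod_eq_zero hkeven
  refine ⟨c, ?_⟩
  have : 4 * (c ^ 2 * m) = 4 * x := by rw [← h, hc]; ring
  omega

/-- The class of a squarefree part. -/
theorem part {k m x y j : ℕ} (hm : m % 4 ≠ 0) (h : k ^ 2 * m = x) (hj : j ≤ 2)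
    (hx : x % 256 = (4 ^ j * y) % 256) (hy : y % 4 ≠ 0) :
    m % 8 = y % 8 ∧ (y % 2 = 0 → m % 16 = y % 16) := by
  have : j = 0 ∨ j = 1 ∨ j = 2 := by omega
  rcases this with rfl | rfl | rfl
  · refine part_base (k := k) ?_ hy
    rw [h]
    simp only [pow_zero, one_mul] at hx
    omega
  · simp only [pow_one] at hx
    obtain ⟨k', hk'⟩ := part_step (k := k) (x := x / 4) hm (by omega)
    refine part_base (k := k') ?_ hy
    rw [hk']
    omega
  · norm_num at hx
    obtain ⟨k', hk'⟩ := part_step (k := k) (x := x / 4) hm (by omega)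
    obtain ⟨k'', hk''⟩ := part_step (k := k') (x := x / 4 / 4) hm (by omega)
    refine part_base (k := k'') ?_ hy
    rw [hk'']
    omega

theorem sqfree_mod {n : ℕ} (h : Squarefree n) : n % 4 ≠ 0 := by
  intro h0
  have h1 : 2 * 2 ∣ n := Nat.dvd_of_mod_eq_zero h0
  exact absurd (Nat.isUnit_iff.1 (h 2 h1)) (by norm_num)


/-- The points of the conic `a x ^ 2 + b y ^ 2 = (a + b) z ^ 2`, `b = c + 1`. -/
def px (a c w : ℕ) : ℕ :=
  (c + 1) * w ^ 2 + 2 * (c + 1) * (a + 1) * w + a * (c * (a + 2) + a + 1)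

/-- The points of the conic `a x ^ 2 + b y ^ 2 = (a + b) z ^ 2`, `b = c + 1`. -/
def py (a c w : ℕ) : ℕ :=
  (c + 1) * w ^ 2 + (2 * (c + 1) * (a + 2) + 2 * a) * w + ((c + 1) * (a + 2) ^ 2 + 2 * a ^ 2 + 3 * a)

/-- The points of the conic `a x ^ 2 + b y ^ 2 = (a + b) z ^ 2`, `b = c + 1`. -/
def pz (a c w : ℕ) : ℕ :=
  (c + 1) * w ^ 2 + 2 * (c + 1) * (a + 2) * w + ((c + 1) * (a + 2) ^ 2 + a)

/-- The polynomial whose large prime factors are used. -/
def pf (a c w : ℕ) : ℕ := 2 * a * px a c w ^ 2 + (c + 1) * py a c w ^ 2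

/-- Its derivative. -/
def pg (a c w : ℕ) : ℕ :=
  4 * a * px a c w * (2 * (c + 1) * w + 2 * (c + 1) * (a + 1)) +
    2 * (c + 1) * py a c w * (2 * (c + 1) * w + 2 * (c + 1) * (a + 2) + 2 * a)

theorem conic (a c w : ℕ) :
    a * px a c w ^ 2 + (c + 1) * py a c w ^ 2 = (a + c + 1) * pz a c w ^ 2 := by
  unfold px py pz
  ring

theorem pf_add (a c w h : ℕ) :
    ∃ K : ℕ, pf a c (w + h) = pf a c w + h * (pg a c w + h * K) ∧ 0 < K := by
  refine ⟨4 * a * (c + 1) * px a c w +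
    2 * a * (2 * (c + 1) * w + 2 * (c + 1) * (a + 1) + (c + 1) * h) ^ 2 +
    2 * (c + 1) ^ 2 * py a c w +
    (c + 1) * (2 * (c + 1) * w + 2 * (c + 1) * (a + 2) + 2 * a + (c + 1) * h) ^ 2, ?_, ?_⟩
  · unfold pf pg px py
    ring
  · positivity

theorem pf_pg (a c w : ℕ) : py a c w * pg a c w =
    2 * (2 * (c + 1) * w + 2 * (c + 1) * (a + 2) + 2 * a) * pf a c w +
      8 * a * (a + c + 1) * (px a c w * pz a c w) := by
  unfold pf pg px py pz
  ring

theorem py_eq (a c w : ℕ) : py a c w = px a c w + 2 * (a + c + 1) * (w + a + 2) := by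
  unfold py px; ring

/-- A large prime does not divide both `x` and `y`. -/
theorem not_both {a c w ℓ : ℕ} (hp : ℓ.Prime) (ha : 0 < a) (hℓ : 2 * (a + c + 1) < ℓ)
    (hx : ℓ ∣ px a c w) (hy : ℓ ∣ py a c w) : False := by
  rw [py_eq] at hy
  have h1 := (Nat.dvd_add_right hx).1 hy
  have h2 : ℓ ∣ w + a + 2 := by
    rcases (hp.dvd_mul).1 h1 with h | h
    · exact absurd (Nat.le_of_dvd (by positivity) h) (by omega)
    · exact h
  have e2 : px a c w + a = (c + 1) * ((w + a + 2) * (w + a)) := by unfold px; ring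
  have h3 : ℓ ∣ px a c w + a := by
    rw [e2]
    exact Dvd.dvd.mul_left (Dvd.dvd.mul_right h2 _) _
  have h4 := (Nat.dvd_add_right hx).1 h3
  exact absurd (Nat.le_of_dvd ha h4) (by omega)

theorem not_pf_pg {a c w ℓ : ℕ} (hp : ℓ.Prime) (ha : 0 < a) (hℓ : 8 * (a + c + 1) < ℓ)
    (h1 : ℓ ∣ pf a c w) (h2 : ℓ ∣ pg a c w) : False := by
  have h3 : ℓ ∣ 8 * a * (a + c + 1) * (px a c w * pz a c w) := by
    have h4 : ℓ ∣ py a c w * pg a c w := Dvd.dvd.mul_left h2 _
    rw [pf_pg] at h4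
    exact (Nat.dvd_add_right (Dvd.dvd.mul_left h1 _)).1 h4
  have hxn : ¬ ℓ ∣ px a c w := by
    intro hx
    have hy : ℓ ∣ (c + 1) * py a c w ^ 2 := by
      have : ℓ ∣ 2 * a * px a c w ^ 2 := Dvd.dvd.mul_left (dvd_pow hx two_ne_zero) _
      exact (Nat.dvd_add_right this).1 h1
    rcases (hp.dvd_mul).1 hy with h | h
    · exact absurd (Nat.le_of_dvd (by omega) h) (by omega)
    · exact not_both hp ha (by omega) hx (hp.dvd_of_dvd_pow h)
  rcases (hp.dvd_mul).1 h3 with h | h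
  · rcases (hp.dvd_mul).1 h with h5 | h5
    · rcases (hp.dvd_mul).1 h5 with h6 | h6
      · exact absurd (Nat.le_of_dvd (by norm_num) h6) (by omega)
      · exact absurd (Nat.le_of_dvd ha h6) (by omega)
    · exact absurd (Nat.le_of_dvd (by omega) h5) (by omega)
  · rcases (hp.dvd_mul).1 h with hx | hz
    · exact hxn hx
    · have h7 : ℓ ∣ a * px a c w ^ 2 + (c + 1) * py a c w ^ 2 := by
        rw [conic]
        exact Dvd.dvd.mul_left (dvd_pow hz two_ne_zero) _
      have h8 : ℓ ∣ a * px a c w ^ 2 := by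
        have e : pf a c w = a * px a c w ^ 2 + (a * px a c w ^ 2 + (c + 1) * py a c w ^ 2) := by
          unfold pf; ring
        rw [e] at h1
        exact (Nat.dvd_add_left h7).1 h1
      rcases (hp.dvd_mul).1 h8 with h9 | h9
      · exact absurd (Nat.le_of_dvd ha h9) (by omega)
      · exact hxn (hp.dvd_of_dvd_pow h9)

/-- Arbitrarily large primes which divide `pf a c w` exactly once, `w` in a residue class. -/
theorem exists_prime (a c w₀ M B : ℕ) (ha : 0 < a) (hM : 0 < M) (hB : 8 * (a + c + 1) ≤ B)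
    (hMB : M ≤ B) :
    ∃ w ℓ : ℕ, ℓ.Prime ∧ B < ℓ ∧ B ≤ w ∧ w % M = w₀ % M ∧ ℓ ∣ pf a c w ∧ ¬ ℓ ^ 2 ∣ pf a c w := by
  set c₀ := pf a c w₀ with hc₀
  have hc0 : 0 < c₀ := by
    have : 0 < py a c w₀ := by unfold py; positivity
    rw [hc₀]; unfold pf; positivity
  have hf : 0 < B.factorial := Nat.factorial_pos B
  set h := M * (c₀ * B.factorial) with hh
  have hh0 : 0 < h := by positivity
  obtain ⟨K, hK, hK0⟩ := pf_add a c w₀ h
  set g := 1 + B.factorial * (M * (pg a c w₀ + h * K)) with hg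
  have hF : pf a c (w₀ + h) = c₀ * g := by
    rw [hK, hg, ← hc₀]
    nth_rewrite 1 [hh]
    ring
  have hg1 : g ≠ 1 := by
    have : 0 < B.factorial * (M * (pg a c w₀ + h * K)) := by positivity
    omega
  set ℓ := g.minFac with hℓ
  have hp : ℓ.Prime := Nat.minFac_prime hg1
  have hℓg : ℓ ∣ g := Nat.minFac_dvd _
  have hBℓ : B < ℓ := by
    by_contra hle
    have h1 : ℓ ∣ B.factorial := Nat.dvd_factorial hp.pos (not_lt.1 hle)
    have h2 : ℓ ∣ 1 := by
      rw [hg] at hℓg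
      exact (Nat.dvd_add_left (Dvd.dvd.mul_right h1 _)).1 hℓg
    exact hp.one_lt.ne' (Nat.dvd_one.1 h2)
  have hdvd : ℓ ∣ pf a c (w₀ + h) := by
    rw [hF]
    exact Dvd.dvd.mul_left hℓg c₀
  have hBr : B ≤ w₀ + h := by
    calc B ≤ B.factorial := Nat.self_le_factorial B
      _ ≤ c₀ * B.factorial := Nat.le_mul_of_pos_left _ hc0
      _ ≤ M * (c₀ * B.factorial) := Nat.le_mul_of_pos_left _ hM
      _ ≤ w₀ + h := Nat.le_add_left _ _
  by_cases h2 : ℓ ^ 2 ∣ pf a c (w₀ + h)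
  · refine ⟨w₀ + h + M * ℓ, ℓ, hp, hBℓ, by omega, ?_, ?_, ?_⟩
    · rw [Nat.add_mul_mod_self_left, hh, Nat.add_mul_mod_self_left]
    · obtain ⟨K', hK', -⟩ := pf_add a c (w₀ + h) (M * ℓ)
      rw [hK']
      exact dvd_add hdvd (Dvd.dvd.mul_right (dvd_mul_left ℓ M) _)
    · intro h3
      obtain ⟨K', hK', -⟩ := pf_add a c (w₀ + h) (M * ℓ)
      rw [hK'] at h3
      have h4 := (Nat.dvd_add_right h2).1 h3
      have e1 : M * ℓ * (pg a c (w₀ + h) + M * ℓ * K') =
          ℓ ^ 2 * (M ^ 2 * K') + ℓ * (M * pg a c (w₀ + h)) := by ring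
      rw [e1] at h4
      have h5 := (Nat.dvd_add_right (dvd_mul_right (ℓ ^ 2) (M ^ 2 * K'))).1 h4
      have h6 : ℓ ∣ M * pg a c (w₀ + h) := by
        rw [pow_two] at h5
        exact Nat.dvd_of_mul_dvd_mul_left hp.pos h5
      rcases (hp.dvd_mul).1 h6 with h7 | h7
      · exact absurd (Nat.le_of_dvd hM h7) (by omega)
      · exact not_pf_pg hp ha (by omega) hdvd h7
  · refine ⟨w₀ + h, ℓ, hp, hBℓ, hBr, ?_, hdvd, h2⟩
    rw [hh, Nat.add_mul_mod_self_left]

/-- For large `w` the first number is larger. -/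
theorem big (a c w : ℕ) (ha : c + 2 ≤ a) (hw : 16 * (a + c + 1) ≤ w) :
    (c + 1) * py a c w ^ 2 < a * px a c w ^ 2 := by
  obtain ⟨δ, hδ⟩ : ∃ δ, δ = 2 * (a + c + 1) * (w + a + 2) := ⟨_, rfl⟩
  have hy : py a c w = px a c w + δ := by rw [hδ, py_eq]
  have h1 : 4 * (c + 1) * δ ≤ px a c w := by
    have e1 : δ ≤ 4 * (a + c + 1) * w := by
      rw [hδ]
      have : w + a + 2 ≤ 2 * w := by omega
      calc 2 * (a + c + 1) * (w + a + 2) ≤ 2 * (a + c + 1) * (2 * w) := Nat.mul_le_mul_left _ this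
        _ = 4 * (a + c + 1) * w := by ring
    calc 4 * (c + 1) * δ ≤ 4 * (c + 1) * (4 * (a + c + 1) * w) := Nat.mul_le_mul_left _ e1
      _ = (c + 1) * ((16 * (a + c + 1)) * w) := by ring
      _ ≤ (c + 1) * (w * w) := Nat.mul_le_mul_left _ (Nat.mul_le_mul_right _ hw)
      _ = (c + 1) * w ^ 2 := by ring
      _ ≤ px a c w := by unfold px; omega
  have hx0 : 0 < px a c w := by
    have : 0 < w := by omega
    unfold px; positivity
  rw [hy]
  generalize px a c w = x at *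
  have h2 : (c + 1) * (x + δ) ^ 2 < (c + 2) * x ^ 2 := by
    have h3 : 4 * ((c + 1) * δ) * x ≤ x * x := by
      have := Nat.mul_le_mul_right x h1
      calc 4 * ((c + 1) * δ) * x = 4 * (c + 1) * δ * x := by ring
        _ ≤ x * x := this
    have h4 : 4 * ((c + 1) * δ) * δ ≤ x * δ := by
      have := Nat.mul_le_mul_right δ h1
      calc 4 * ((c + 1) * δ) * δ = 4 * (c + 1) * δ * δ := by ring
        _ ≤ x * δ := this
    have h5 : δ ≤ x := by
      calc δ ≤ 4 * (c + 1) * δ := Nat.le_mul_of_pos_left _ (by positivity)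
        _ ≤ x := h1
    have h6 : x * δ ≤ x * x := Nat.mul_le_mul_left _ h5
    have h7 : 0 < x * x := Nat.mul_pos hx0 hx0
    have e1 : (c + 1) * (x + δ) ^ 2 =
        (c + 1) * (x * x) + 2 * (((c + 1) * δ) * x) + ((c + 1) * δ) * δ := by ring
    have e2 : (c + 2) * x ^ 2 = (c + 1) * (x * x) + x * x := by ring
    rw [e1, e2]
    have h8 : 4 * ((c + 1) * δ) * x = 4 * (((c + 1) * δ) * x) := by ring
    have h9 : 4 * ((c + 1) * δ) * δ = 4 * (((c + 1) * δ) * δ) := by ring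
    omega
  exact lt_of_lt_of_le h2 (Nat.mul_le_mul_right _ ha)

/-- The main construction: `n`, `m`, `l` are the squarefree parts of `b N`, `a N` and `(a + b) N`. -/
theorem construct (a c w₀ M B : ℕ) (ha : c + 2 ≤ a) (hM : 0 < M) :
    ∃ w n m l k k' k'' e : ℕ, B < n ∧ B < m ∧ B < l ∧ Squarefree n ∧ Squarefree m ∧ Squarefree l ∧
      w % M = w₀ % M ∧ a * px a c w ^ 2 = (c + 1) * py a c w ^ 2 + e ∧
      k ^ 2 * n = (c + 1) * (3 * (3 * ((c + 1) * py a c w ^ 2) + e) * e *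
        (3 * ((c + 1) * py a c w ^ 2) + 2 * e)) ∧ k' ^ 2 * m = a * (c + 1) * n ∧
      k'' ^ 2 * l = (a + c + 1) * (c + 1) * n ∧ Congruent n ∧ Congruent m ∧ Congruent l := by
  have ha0 : 0 < a := by omega
  have hab : a * (c + 1) ≤ (a + c + 1) ^ 2 := by nlinarith
  have hab' : (a + c + 1) * (c + 1) ≤ (a + c + 1) ^ 2 := by nlinarith
  obtain ⟨w, ℓ, hp, hBℓ, hBw, hwM, hdvd, hndvd⟩ :=
    exists_prime a c w₀ M (B + 16 * (a + c + 1) + M + (a + c + 1) ^ 2) ha0 hM (by omega) (by omega)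
  have hbig := big a c w ha (by omega)
  obtain ⟨e, he⟩ : ∃ e : ℕ, a * px a c w ^ 2 = (c + 1) * py a c w ^ 2 + e :=
    ⟨a * px a c w ^ 2 - (c + 1) * py a c w ^ 2, by omega⟩
  have he0 : 0 < e := by omega
  have hy0 : 0 < py a c w := by unfold py; positivity
  have hx0 : 0 < px a c w := by unfold px; positivity
  have hz0 : 0 < pz a c w := by unfold pz; positivity
  have hz := conic a c w
  have hpf : pf a c w = 3 * ((c + 1) * py a c w ^ 2) + 2 * e := by
    have : pf a c w = 2 * (a * px a c w ^ 2) + (c + 1) * py a c w ^ 2 := by unfold pf; ring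
    rw [this, he]; ring
  rw [hpf] at hdvd hndvd
  have hnb := @not_both a c w ℓ hp ha0 (by omega)
  obtain ⟨x, hxd⟩ : ∃ x, px a c w = x := ⟨_, rfl⟩
  obtain ⟨y, hyd⟩ : ∃ y, py a c w = y := ⟨_, rfl⟩
  obtain ⟨z, hzd⟩ : ∃ z, pz a c w = z := ⟨_, rfl⟩
  rw [hxd, hyd] at he hnb hbig
  rw [hxd] at hx0
  rw [hyd] at hy0 hdvd hndvd
  rw [hzd] at hz0
  rw [hxd, hyd, hzd] at hz
  obtain ⟨Y, hY⟩ : ∃ Y, Y = (c + 1) * y ^ 2 := ⟨_, rfl⟩
  have hY0 : 0 < Y := by rw [hY]; positivity
  rw [← hY] at he hz hdvd hndvd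
  obtain ⟨hcb, hca, hcc⟩ := cong_family Y e hY0 he0
  rw [show 2 * Y + e = (a + c + 1) * z ^ 2 by rw [← hz, he]; ring] at hcc
  rw [← he] at hca
  obtain ⟨N, hN⟩ : ∃ N, N = 3 * (3 * Y + e) * e * (3 * Y + 2 * e) := ⟨_, rfl⟩
  rw [← hN] at hcb hca hcc
  have hN0 : 0 < N := by rw [hN]; positivity
  have hN1 : 0 < (c + 1) * N := by positivity
  obtain ⟨n, k, hnk, hsq⟩ := Nat.sq_mul_squarefree ((c + 1) * N)
  have hk : 0 < k := by
    rcases Nat.eq_zero_or_pos k with h | h
    · rw [h] at hnk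
      simp at hnk
      omega
    · exact h
  have hn0 : 0 < n := by
    rcases Nat.eq_zero_or_pos n with h | h
    · rw [h] at hnk
      simp at hnk
      omega
    · exact h
  -- `ℓ` divides `N` exactly once
  have hℓ3 : ¬ ℓ ∣ 3 := fun h => absurd (Nat.le_of_dvd (by norm_num) h) (by omega)
  have hℓc : ¬ ℓ ∣ c + 1 := fun h => absurd (Nat.le_of_dvd (by omega) h) (by omega)
  have hℓe : ¬ ℓ ∣ e := by
    intro h
    have h1 : ℓ ∣ 3 * Y := (Nat.dvd_add_left (Dvd.dvd.mul_left h 2)).1 hdvd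
    have h1' : ℓ ∣ Y := by
      rcases (hp.dvd_mul).1 h1 with h3 | h3
      · exact absurd h3 hℓ3
      · exact h3
    have h2 : ℓ ∣ y := by
      rw [hY] at h1'
      rcases (hp.dvd_mul).1 h1' with h3 | h3
      · exact absurd h3 hℓc
      · exact hp.dvd_of_dvd_pow h3
    have h3 : ℓ ∣ a * x ^ 2 := by
      rw [he]
      exact dvd_add h1' h
    have h4 : ℓ ∣ x := by
      rcases (hp.dvd_mul).1 h3 with h5 | h5
      · exact absurd (Nat.le_of_dvd ha0 h5) (by omega)
      · exact hp.dvd_of_dvd_pow h5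
    exact hnb h4 h2
  have hℓf : ¬ ℓ ∣ 3 * Y + e := by
    intro h
    have e1 : 3 * Y + 2 * e = (3 * Y + e) + e := by ring
    rw [e1] at hdvd
    exact hℓe ((Nat.dvd_add_right h).1 hdvd)
  have hℓN : ¬ ℓ ^ 2 ∣ (c + 1) * N := by
    intro h
    apply hndvd
    have hc : Nat.Coprime (ℓ ^ 2) ((c + 1) * (3 * (3 * Y + e) * e)) := by
      apply Nat.Coprime.pow_left
      rw [Nat.Prime.coprime_iff_not_dvd hp]
      intro h1
      rcases (hp.dvd_mul).1 h1 with h0 | h1
      · exact hℓc h0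
      rcases (hp.dvd_mul).1 h1 with h2 | h2
      · rcases (hp.dvd_mul).1 h2 with h3 | h3
        · exact hℓ3 h3
        · exact hℓf h3
      · exact hℓe h2
    have e1 : (c + 1) * N = (c + 1) * (3 * (3 * Y + e) * e) * (3 * Y + 2 * e) := by rw [hN]; ring
    rw [e1] at h
    exact hc.dvd_of_dvd_mul_left h
  have hℓk : ¬ ℓ ∣ k := by
    intro h
    apply hℓN
    rw [← hnk]
    exact Dvd.dvd.mul_right (pow_dvd_pow_of_dvd h 2) n
  have hℓn : ℓ ∣ n := by
    have h1 : ℓ ∣ k ^ 2 * n := by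
      rw [hnk, hN]
      exact Dvd.dvd.mul_left (Dvd.dvd.mul_left hdvd _) _
    rcases (hp.dvd_mul).1 h1 with h2 | h2
    · exact absurd (hp.dvd_of_dvd_pow h2) hℓk
    · exact h2
  have hℓn2 : ¬ ℓ ^ 2 ∣ n := by
    intro h
    apply hℓN
    rw [← hnk]
    exact Dvd.dvd.mul_left h (k ^ 2)
  -- the squarefree part of a small multiple of `n`
  have key : ∀ q u : ℕ, 0 < q → q < ℓ → 0 < u → Congruent (q * u ^ 2 * ((c + 1) * N)) →
      ∃ m k' : ℕ, B < m ∧ Squarefree m ∧ k' ^ 2 * m = q * n ∧ Congruent m := by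
    intro q u hc hcℓ hu hcong
    obtain ⟨m, k', hmk, hsqm⟩ := Nat.sq_mul_squarefree (q * n)
    have hcn : 0 < q * n := Nat.mul_pos hc hn0
    have hk' : 0 < k' := by
      rcases Nat.eq_zero_or_pos k' with h | h
      · rw [h] at hmk
        simp at hmk
        omega
      · exact h
    have hm0 : 0 < m := by
      rcases Nat.eq_zero_or_pos m with h | h
      · rw [h] at hmk
        simp at hmk
        omega
      · exact h
    have hℓm : ℓ ∣ m := by
      have h1 : ℓ ∣ k' ^ 2 * m := by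
        rw [hmk]
        exact Dvd.dvd.mul_left hℓn q
      rcases (hp.dvd_mul).1 h1 with h2 | h2
      · exfalso
        have h3 : ℓ ∣ k' := hp.dvd_of_dvd_pow h2
        have h4 : ℓ ^ 2 ∣ q * n := by
          rw [← hmk]
          exact Dvd.dvd.mul_right (pow_dvd_pow_of_dvd h3 2) m
        apply hℓn2
        refine Nat.Coprime.dvd_of_dvd_mul_left ?_ h4
        apply Nat.Coprime.pow_left
        rw [Nat.Prime.coprime_iff_not_dvd hp]
        exact fun h => absurd (Nat.le_of_dvd hc h) (by omega)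
      · exact h2
    refine ⟨m, k', lt_of_lt_of_le (by omega) (Nat.le_of_dvd hm0 hℓm), hsqm, hmk, ?_⟩
    refine cong_scale (k := k' * (u * k)) (by positivity) ?_
    have e1 : m * (k' * (u * k)) ^ 2 = q * u ^ 2 * ((c + 1) * N) := by
      calc m * (k' * (u * k)) ^ 2 = (k' ^ 2 * m) * (u * k) ^ 2 := by ring
        _ = q * u ^ 2 * (k ^ 2 * n) := by rw [hmk]; ring
        _ = q * u ^ 2 * ((c + 1) * N) := by rw [hnk]
    rw [e1]
    exact hcong
  have hc10 : 0 < c + 1 := by omega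
  obtain ⟨m, k', hBm, hsqm, hmk, hcm⟩ := key (a * (c + 1)) x (by positivity) (by omega) hx0 (by
    have := cong_scale' hc10 hca
    rw [show a * (c + 1) * x ^ 2 * ((c + 1) * N) = a * x ^ 2 * N * (c + 1) ^ 2 by ring]
    exact this)
  obtain ⟨l, k'', hBl, hsql, hlk, hcl⟩ := key ((a + c + 1) * (c + 1)) z (by positivity) (by omega) hz0
    (by
      have := cong_scale' hc10 hcc
      rw [show (a + c + 1) * (c + 1) * z ^ 2 * ((c + 1) * N) =
        (a + c + 1) * z ^ 2 * N * (c + 1) ^ 2 by ring]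
      exact this)
  refine ⟨w, n, m, l, k, k', k'', e, lt_of_lt_of_le (by omega) (Nat.le_of_dvd hn0 hℓn), hBm, hBl, hsq,
    hsqm, hsql, hwM, by rw [hxd, hyd, ← hY]; exact he, by rw [hyd, ← hY, ← hN]; exact hnk, hmk, hlk,
    ?_, hcm, hcl⟩
  refine cong_scale (k := y * k) (by positivity) ?_
  have e1 : n * (y * k) ^ 2 = Y * N := by
    calc n * (y * k) ^ 2 = y ^ 2 * (k ^ 2 * n) := by ring
      _ = Y * N := by rw [hnk, hY]; ring
  rw [e1]
  exact hcb

/-- `N` modulo `256`, for `b = 1`. -/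
def tabN (d w : ℕ) : ℕ :=
  (3 * (3 * (py d 0 w ^ 2 % 256) + ((d * px d 0 w ^ 2) % 256 + 256 - py d 0 w ^ 2 % 256)) *
    ((d * px d 0 w ^ 2) % 256 + 256 - py d 0 w ^ 2 % 256) *
    (3 * (py d 0 w ^ 2 % 256) + 2 * ((d * px d 0 w ^ 2) % 256 + 256 - py d 0 w ^ 2 % 256))) % 256

/-- The class of `N` that is needed. -/
def cond (r N : ℕ) : Prop :=
  (r = 2 ∧ (N % 8 = 7 ∨ N % 32 = 28 ∨ N % 128 = 112)) ∨
    ((r = 4 ∨ r = 9) ∧ (N % 16 = 6 ∨ N % 64 = 24 ∨ N % 256 = 96)) ∨
    (r = 1 ∧ (N % 16 = 14 ∨ N % 64 = 56 ∨ N % 256 = 224))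

instance (r N : ℕ) : Decidable (cond r N) := by unfold cond; infer_instance

theorem tab : ∀ d < 256, (d % 16 = 1 ∨ d % 16 = 2 ∨ d % 16 = 4 ∨ d % 16 = 9) →
    ∃ w < 32, cond (d % 16) (tabN d w) := by
  decide +kernel

theorem cls {k n N : ℕ} (hn : n % 4 ≠ 0) (h : k ^ 2 * n = N) :
    ((N % 8 = 7 ∨ N % 32 = 28 ∨ N % 128 = 112) → n % 8 = 7) ∧
    ((N % 16 = 6 ∨ N % 64 = 24 ∨ N % 256 = 96) → n % 16 = 6) ∧
    ((N % 16 = 14 ∨ N % 64 = 56 ∨ N % 256 = 224) → n % 16 = 14) := by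
  refine ⟨?_, ?_, ?_⟩
  · rintro (h1 | h1 | h1)
    · have := part (j := 0) (y := N) hn h (by norm_num) (by omega) (by omega)
      omega
    · have := part (j := 1) (y := N / 4) hn h (by norm_num) (by omega) (by omega)
      omega
    · have := part (j := 2) (y := N / 16) hn h (by norm_num) (by omega) (by omega)
      omega
  · rintro (h1 | h1 | h1)
    · have := part (j := 0) (y := N) hn h (by norm_num) (by omega) (by omega)
      omega
    · have := part (j := 1) (y := N / 4) hn h (by norm_num) (by omega) (by omega)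
      omega
    · have := part (j := 2) (y := N / 16) hn h (by norm_num) (by omega) (by omega)
      omega
  · rintro (h1 | h1 | h1)
    · have := part (j := 0) (y := N) hn h (by norm_num) (by omega) (by omega)
      omega
    · have := part (j := 1) (y := N / 4) hn h (by norm_num) (by omega) (by omega)
      omega
    · have := part (j := 2) (y := N / 16) hn h (by norm_num) (by omega) (by omega)
      omega

theorem px_cast (a c w d w' : ℕ) (ha : (a : ZMod 256) = (c + 1) * d)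
    (hw : (w : ZMod 256) = w' + d - a) : (px a c w : ZMod 256) = (c + 1) * (px d 0 w' : ℕ) := by
  unfold px
  push_cast
  rw [hw]
  linear_combination (-1) * ha

theorem py_cast (a c w d w' : ℕ) (ha : (a : ZMod 256) = (c + 1) * d)
    (hw : (w : ZMod 256) = w' + d - a) : (py a c w : ZMod 256) = (c + 1) * (py d 0 w' : ℕ) := by
  unfold py
  push_cast
  rw [hw]
  linear_combination (2 * (w' + d + 2) - 1) * ha

theorem tabN_cast (d w : ℕ) : (tabN d w : ZMod 256) =
    3 * (2 * py d 0 w ^ 2 + d * px d 0 w ^ 2) * (d * px d 0 w ^ 2 - py d 0 w ^ 2) *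
      (py d 0 w ^ 2 + 2 * (d * px d 0 w ^ 2)) := by
  have h256 : (256 : ZMod 256) = 0 := by
    have := ZMod.natCast_self 256
    exact_mod_cast this
  have hle : py d 0 w ^ 2 % 256 ≤ (d * px d 0 w ^ 2) % 256 + 256 :=
    le_trans (Nat.mod_lt _ (by norm_num)).le (Nat.le_add_left _ _)
  unfold tabN
  rw [ZMod.natCast_mod]
  push_cast [Nat.cast_sub hle, ZMod.natCast_mod]
  rw [h256]
  ring

/-- The triples, with the class of `n`. Here `a = b d` modulo `256`. -/
theorem triples (a c d B : ℕ) (hac : c + 2 ≤ a) (hc : c % 2 = 0) (hd : d < 256)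
    (had : (a : ZMod 256) = (c + 1) * d)
    (h : d % 16 = 1 ∨ d % 16 = 2 ∨ d % 16 = 4 ∨ d % 16 = 9) :
    ∃ n m l k' k'' : ℕ, B < n ∧ B < m ∧ B < l ∧ Squarefree n ∧ Squarefree m ∧ Squarefree l ∧
      k' ^ 2 * m = a * (c + 1) * n ∧ k'' ^ 2 * l = (a + c + 1) * (c + 1) * n ∧
      Congruent n ∧ Congruent m ∧ Congruent l ∧
      (d % 16 = 2 → n % 8 = 7) ∧ (d % 16 = 4 → n % 16 = 6) ∧ (d % 16 = 9 → n % 16 = 6) ∧
      (d % 16 = 1 → n % 16 = 14) := by
  obtain ⟨w₀, -, hw₀⟩ := tab d hd h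
  obtain ⟨w, n, m, l, k, k', k'', e, hBn, hBm, hBl, hsn, hsm, hsl, hw, he, hnk, hmk, hlk, hcn, hcm,
    hcl⟩ := construct a c (w₀ + d + 255 * a) 256 B hac (by norm_num)
  have h256 : (256 : ZMod 256) = 0 := by
    have := ZMod.natCast_self 256
    exact_mod_cast this
  have hw1 : (w : ZMod 256) = w₀ + d - a := by
    have h1 : (w : ZMod 256) = ((w₀ + d + 255 * a : ℕ) : ZMod 256) :=
      (ZMod.natCast_eq_natCast_iff' _ _ _).2 hw
    rw [h1]
    push_cast
    linear_combination (a : ZMod 256) * h256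
  have hx := px_cast a c w d w₀ had hw1
  have hy := py_cast a c w d w₀ had hw1
  -- the inverse of `b`
  obtain ⟨i, hi⟩ : ∃ i : ℕ, ((c : ZMod 256) + 1) * i = 1 := by
    have hcop : Nat.Coprime (c + 1) 256 := by
      have : Nat.Coprime (c + 1) 2 :=
        ((Nat.Prime.coprime_iff_not_dvd Nat.prime_two).2 (by omega)).symm
      exact this.pow_right 8
    have h1 := ZMod.coe_mul_inv_eq_one (c + 1) hcop
    refine ⟨(((c + 1 : ℕ) : ZMod 256)⁻¹).val, ?_⟩
    rw [ZMod.natCast_val, ZMod.cast_id]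
    push_cast at h1 ⊢
    exact h1
  have hee : (e : ZMod 256) = a * (px a c w : ZMod 256) ^ 2 - (c + 1) * (py a c w : ZMod 256) ^ 2 := by
    have h1 : ((a * px a c w ^ 2 : ℕ) : ZMod 256) = (((c + 1) * py a c w ^ 2 + e : ℕ) : ZMod 256) := by
      rw [he]
    push_cast at h1
    linear_combination (-1) * h1
  have hN : (i ^ 10 * ((c + 1) * (3 * (3 * ((c + 1) * py a c w ^ 2) + e) * e *
      (3 * ((c + 1) * py a c w ^ 2) + 2 * e)))) % 256 = tabN d w₀ % 256 := by
    rw [← ZMod.natCast_eq_natCast_iff', tabN_cast]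
    push_cast
    rw [hee, hx, hy, had]
    have h10 : ((c : ZMod 256) + 1) ^ 10 * (i : ZMod 256) ^ 10 = 1 := by
      rw [← mul_pow, hi, one_pow]
    linear_combination (3 * (2 * (py d 0 w₀ : ZMod 256) ^ 2 + d * (px d 0 w₀ : ZMod 256) ^ 2) *
      (d * (px d 0 w₀ : ZMod 256) ^ 2 - (py d 0 w₀ : ZMod 256) ^ 2) *
      ((py d 0 w₀ : ZMod 256) ^ 2 + 2 * (d * (px d 0 w₀ : ZMod 256) ^ 2))) * h10
  have hnk' : (i ^ 5 * k) ^ 2 * n = i ^ 10 * ((c + 1) * (3 * (3 * ((c + 1) * py a c w ^ 2) + e) * e *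
      (3 * ((c + 1) * py a c w ^ 2) + 2 * e))) := by
    rw [← hnk]; ring
  obtain ⟨h7, h6, h14⟩ := cls (sqfree_mod hsn) hnk'
  generalize tabN d w₀ = T at hN hw₀
  generalize i ^ 10 * ((c + 1) * (3 * (3 * ((c + 1) * py a c w ^ 2) + e) * e *
      (3 * ((c + 1) * py a c w ^ 2) + 2 * e))) = N at hN h7 h6 h14
  refine ⟨n, m, l, k', k'', hBn, hBm, hBl, hsn, hsm, hsl, hmk, hlk, hcn, hcm, hcl, ?_, ?_, ?_, ?_⟩
  · intro h1
    rcases hw₀ with ⟨-, h2⟩ | ⟨h2, -⟩ | ⟨h2, -⟩
    · exact h7 (by omega)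
    · omega
    · omega
  · intro h1
    rcases hw₀ with ⟨h2, -⟩ | ⟨-, h2⟩ | ⟨h2, -⟩
    · omega
    · exact h6 (by omega)
    · omega
  · intro h1
    rcases hw₀ with ⟨h2, -⟩ | ⟨-, h2⟩ | ⟨h2, -⟩
    · omega
    · exact h6 (by omega)
    · omega
  · intro h1
    rcases hw₀ with ⟨h2, -⟩ | ⟨h2, -⟩ | ⟨-, h2⟩
    · omega
    · omega
    · exact h14 (by omega)

/-- The class of the squarefree part `m` of `x`, `x` not divisible by `4`. -/
theorem cls0 {k m x : ℕ} (hm : Squarefree m) (h : k ^ 2 * m = x) (hx : x % 4 ≠ 0) :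
    m % 8 = x % 8 := by
  have := part (j := 0) (y := x) (sqfree_mod hm) h (by norm_num) (by omega) hx
  exact this.1

/-- The class of the squarefree part `m` of `4 x`, `x` not divisible by `4`. -/
theorem cls1 {k m x : ℕ} (hm : Squarefree m) (h : k ^ 2 * m = 4 * x) (hx : x % 4 ≠ 0) :
    m % 8 = x % 8 := by
  have := part (j := 1) (y := x) (sqfree_mod hm) h (by norm_num) (by omega) hx
  exact this.1

theorem mm {a b u v K r : ℕ} (ha : a % K = u) (hb : b % K = v) (hr : (u * v) % K = r) :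
    (a * b) % K = r := by
  rw [Nat.mul_mod, ha, hb, hr]

theorem odd_sq16' (b : ℕ) (hb : b % 2 = 1) : (b * b) % 16 = 1 ∨ (b * b) % 16 = 9 := by
  have := odd_sq16 b hb
  rwa [pow_two] at this

theorem cancel16 : ∀ b < 16, ∀ d < 16, ∀ t < 16, b % 2 = 1 → (b * d) % 16 = (b * t) % 16 → d = t := by
  decide +kernel

/-- **Three congruent numbers with prescribed quotients.** Let `a > b ≥ 1` be integers, `b` odd and `a`
congruent to `b`, `2 b`, `4 b` or `9 b` modulo `16`. There are arbitrarily large squarefree numbers `n`, `m`,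
`l` in the classes `5`, `6`, `7` modulo `8`, with the quotients `b : a : a + b` up to squares, such that all
three are congruent. If `a` is `2 b` modulo `16` there is one number in each of the three classes. -/
theorem result (a b : ℕ) (hb : 0 < b) (hab : b < a) (hodd : b % 2 = 1)
    (h : a % 16 = b % 16 ∨ a % 16 = (2 * b) % 16 ∨ a % 16 = (4 * b) % 16 ∨ a % 16 = (9 * b) % 16)
    (B : ℕ) :
    ∃ n m l : ℕ, B < n ∧ B < m ∧ B < l ∧ Target n ∧ Target m ∧ Target l ∧
      Congruent n ∧ Congruent m ∧ Congruent l ∧ IsSquare (a * b * n * m) ∧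
      IsSquare ((a + b) * b * n * l) ∧
      (a % 16 = (2 * b) % 16 → n % 8 = 7 ∧ m % 8 = 6 ∧ l % 8 = 5) := by
  obtain ⟨c, rfl⟩ : ∃ c, b = c + 1 := ⟨b - 1, by omega⟩
  -- `d = a / b` modulo `256`
  obtain ⟨d, hd, had⟩ : ∃ d : ℕ, d < 256 ∧ (a : ZMod 256) = (c + 1) * d := by
    have hcop : Nat.Coprime (c + 1) 256 := by
      have : Nat.Coprime (c + 1) 2 :=
        ((Nat.Prime.coprime_iff_not_dvd Nat.prime_two).2 (by omega)).symm
      exact this.pow_right 8
    have h1 := ZMod.coe_mul_inv_eq_one (c + 1) hcop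
    refine ⟨((a : ZMod 256) * ((c + 1 : ℕ) : ZMod 256)⁻¹).val, ZMod.val_lt _, ?_⟩
    rw [ZMod.natCast_val, ZMod.cast_id]
    push_cast at h1 ⊢
    linear_combination (-(a : ZMod 256)) * h1
  have had' : a % 256 = ((c + 1) * d) % 256 := by
    rw [← ZMod.natCast_eq_natCast_iff', had]
    push_cast
    ring
  have hcan : ∀ t : ℕ, a % 16 = (t * (c + 1)) % 16 → d % 16 = t % 16 := by
    intro t ht
    refine cancel16 ((c + 1) % 16) (Nat.mod_lt _ (by norm_num)) (d % 16) (Nat.mod_lt _ (by norm_num))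
      (t % 16) (Nat.mod_lt _ (by norm_num)) (by omega) ?_
    rw [← Nat.mul_mod, ← Nat.mul_mod, mul_comm (c + 1) t, ← ht]
    omega
  have hdr : d % 16 = 1 ∨ d % 16 = 2 ∨ d % 16 = 4 ∨ d % 16 = 9 := by
    rcases h with h | h | h | h
    · left; exact hcan 1 (by rw [one_mul]; exact h)
    · right; left; exact hcan 2 h
    · right; right; left; exact hcan 4 h
    · right; right; right; exact hcan 9 h
  obtain ⟨n, m, l, k', k'', hBn, hBm, hBl, hsn, hsm, hsl, hmk, hlk, hcn, hcm, hcl, h2, h4, h9, h1⟩ :=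
    triples a c d B (by omega) (by omega) hd had hdr
  -- the classes of `a b` and `(a + b) b`
  have hs := odd_sq16' (c + 1) hodd
  have ha16 : a ≡ (c + 1) * d [MOD 16] := by
    show a % 16 = ((c + 1) * d) % 16
    omega
  have hD : (a * (c + 1)) % 16 = (d * ((c + 1) * (c + 1))) % 16 := by
    have e1 : a * (c + 1) ≡ (c + 1) * d * (c + 1) [MOD 16] := ha16.mul_right _
    rw [show (c + 1) * d * (c + 1) = d * ((c + 1) * (c + 1)) by ring] at e1
    exact e1
  have hE : ((a + c + 1) * (c + 1)) % 16 = ((d + 1) * ((c + 1) * (c + 1))) % 16 := by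
    have e1 : (a + (c + 1)) * (c + 1) ≡ ((c + 1) * d + (c + 1)) * (c + 1) [MOD 16] :=
      (ha16.add_right _).mul_right _
    rw [show ((c + 1) * d + (c + 1)) * (c + 1) = (d + 1) * ((c + 1) * (c + 1)) by ring] at e1
    exact e1
  have hsq1 : IsSquare (a * (c + 1) * n * m) := ⟨k' * m, by rw [← hmk]; ring⟩
  have hsq2 : IsSquare ((a + (c + 1)) * (c + 1) * n * l) := ⟨k'' * l, by
    rw [show (a + (c + 1)) * (c + 1) * n * l = ((a + c + 1) * (c + 1) * n) * l by ring, ← hlk]; ring⟩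
  generalize a * (c + 1) = D at *
  generalize (a + c + 1) * (c + 1) = E at *
  generalize (c + 1) * (c + 1) = s at *
  have hcl8 : (n % 8 = 7 ∧ m % 8 = 6 ∧ l % 8 = 5) ∨ (d % 16 ≠ 2 ∧ n % 8 = 6 ∧ m % 8 = 6 ∧ l % 8 = 6) ∨
      (d % 16 ≠ 2 ∧ n % 8 = 6 ∧ m % 8 = 6 ∧ l % 8 = 7) := by
    rcases hdr with h | h | h | h
    · -- `d` is `1` modulo `16`
      have hn := h1 h
      right; right
      have e1 : (D * n) % 16 = 14 := by
        rcases hs with hs | hs
        · exact mm (hD.trans (mm h hs rfl)) hn rfl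
        · exact mm (hD.trans (mm h hs rfl)) hn rfl
      have hE2 : E % 16 = 2 := by
        rcases hs with hs | hs
        · exact hE.trans (mm (u := 2) (by omega) hs rfl)
        · exact hE.trans (mm (u := 2) (by omega) hs rfl)
      have e2 : E * n = 4 * (E / 2 * (n / 2)) := by
        obtain ⟨a, ha⟩ : ∃ a, E = 2 * a := ⟨E / 2, by omega⟩
        obtain ⟨b, hb⟩ : ∃ b, n = 2 * b := ⟨n / 2, by omega⟩
        rw [ha, hb, Nat.mul_div_cancel_left _ two_pos, Nat.mul_div_cancel_left _ two_pos]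
        ring
      have e3 : (E / 2 * (n / 2)) % 8 = 7 := mm (u := 1) (v := 7) (by omega) (by omega) rfl
      have e4 := cls0 hsm hmk (by omega)
      have e5 := cls1 hsl (hlk.trans e2) (by omega)
      omega
    · -- `d` is `2` modulo `16`
      have hn := h2 h
      left
      have hn' : n % 16 = 7 ∨ n % 16 = 15 := by omega
      have hD2 : D % 16 = 2 := by
        rcases hs with hs | hs
        · exact hD.trans (mm h hs rfl)
        · exact hD.trans (mm h hs rfl)
      have hE2 : E % 8 = 3 := by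
        have : E % 16 = 3 ∨ E % 16 = 11 := by
          rcases hs with hs | hs
          · exact Or.inl (hE.trans (mm (u := 3) (by omega) hs rfl))
          · exact Or.inr (hE.trans (mm (u := 3) (by omega) hs rfl))
        omega
      have e1 : (D * n) % 16 = 14 := by
        rcases hn' with h3 | h3
        · exact mm hD2 h3 rfl
        · exact mm hD2 h3 rfl
      have e3 : (E * n) % 8 = 5 := mm hE2 hn rfl
      have e4 := cls0 hsm hmk (by omega)
      have e5 := cls0 hsl hlk (by omega)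
      omega
    · -- `d` is `4` modulo `16`
      have hn := h4 h
      right; left
      have hD2 : D % 16 = 4 := by
        rcases hs with hs | hs
        · exact hD.trans (mm h hs rfl)
        · exact hD.trans (mm h hs rfl)
      have hE2 : E % 16 = 5 ∨ E % 16 = 13 := by
        rcases hs with hs | hs
        · exact Or.inl (hE.trans (mm (u := 5) (by omega) hs rfl))
        · exact Or.inr (hE.trans (mm (u := 5) (by omega) hs rfl))
      have e1 : D * n = 4 * (D / 4 * n) := by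
        obtain ⟨a, ha⟩ : ∃ a, D = 4 * a := ⟨D / 4, by omega⟩
        rw [ha, Nat.mul_div_cancel_left _ four_pos]
        ring
      have e2 : (D / 4 * n) % 8 = 6 := by
        have h3 : (D / 4) % 8 = 1 ∨ (D / 4) % 8 = 5 := by omega
        rcases h3 with h3 | h3
        · exact mm (v := 6) h3 (by omega) rfl
        · exact mm (v := 6) h3 (by omega) rfl
      have e3 : (E * n) % 16 = 14 := by
        rcases hE2 with h3 | h3
        · exact mm h3 hn rfl
        · exact mm h3 hn rfl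
      have e4 := cls1 hsm (hmk.trans e1) (by omega)
      have e5 := cls0 hsl hlk (by omega)
      omega
    · -- `d` is `9` modulo `16`
      have hn := h9 h
      right; right
      have e1 : (D * n) % 16 = 6 := by
        rcases hs with hs | hs
        · exact mm (hD.trans (mm h hs rfl)) hn rfl
        · exact mm (hD.trans (mm h hs rfl)) hn rfl
      have hE2 : E % 16 = 10 := by
        rcases hs with hs | hs
        · exact hE.trans (mm (u := 10) (by omega) hs rfl)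
        · exact hE.trans (mm (u := 10) (by omega) hs rfl)
      have e2 : E * n = 4 * (E / 2 * (n / 2)) := by
        obtain ⟨a, ha⟩ : ∃ a, E = 2 * a := ⟨E / 2, by omega⟩
        obtain ⟨b, hb⟩ : ∃ b, n = 2 * b := ⟨n / 2, by omega⟩
        rw [ha, hb, Nat.mul_div_cancel_left _ two_pos, Nat.mul_div_cancel_left _ two_pos]
        ring
      have e3 : (E / 2 * (n / 2)) % 8 = 7 := mm (u := 5) (v := 3) (by omega) (by omega) rfl
      have e4 := cls0 hsm hmk (by omega)
      have e5 := cls1 hsl (hlk.trans e2) (by omega)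
      omega
  refine ⟨n, m, l, hBn, hBm, hBl, ⟨hsn, by omega⟩, ⟨hsm, by omega⟩, ⟨hsl, by omega⟩, hcn, hcm, hcl,
    hsq1, hsq2, fun h3 => ?_⟩
  have h5 := hcan 2 h3
  omega

end Pool.Agent.Results.MP_8efaaa_nt.PrescribedQuotients
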